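import Pool.Agent.Y881.PG.Rich
import Pool.Agent.Y881.SP.Count

/-! # Sums over four sets, and pairs of structured sets, beyond the square root barrier -/

set_option autoImplicit false

namespace Pool.Agent.Y881.PG

open Finset Pool.Agent.H471R4.BW Pool.Agent.H435R3.Paley Pool.Agent.Y881.SP
open scoped Pointwise

open Classical in
/-- the set of large values has at most `p^{1/2+η}` elements -/
theorem LV (ε η : ℝ) (hε : 0 < ε) (hη : 0 < η) : ∃ d : ℝ, 0 < d ∧ ∃ p₀ : ℕ,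
    ∀ (p : ℕ) [Fact p.Prime], p₀ ≤ p → ∀ χ : DirichletCharacter ℂ p, χ ≠ 1 →
    ∀ (B : Finset (ZMod p)) (β : ZMod p → ℂ), (p : ℝ) ^ ε ≤ B.card → (∀ b, ‖β b‖ ≤ 1) →
      ((univ.filter fun z : ZMod p => (p : ℝ) ^ (-d) * B.card <
        ‖∑ b ∈ B, β b * χ (z + b)‖).card : ℝ) ≤ (p : ℝ) ^ (1 / 2 + η) := by
  obtain ⟨r, hr⟩ : ∃ r : ℕ, r = ⌈1 / ε⌉₊ + 1 := ⟨_, rfl⟩
  have hr1 : 1 ≤ r := by omega
  have hrε : 1 ≤ ε * r := by
    have h1 : 1 / ε ≤ (⌈1 / ε⌉₊ : ℝ) := Nat.le_ceil _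
    have h2 : (r : ℝ) = (⌈1 / ε⌉₊ : ℝ) + 1 := by rw [hr]; push_cast; ring
    rw [h2]
    have h3 : 1 = ε * (1 / ε) := by field_simp
    nlinarith
  have hr0 : (1 : ℝ) ≤ r := by exact_mod_cast hr1
  obtain ⟨d, hd⟩ : ∃ d : ℝ, d = η / (4 * r) := ⟨_, rfl⟩
  have hd0 : 0 < d := by rw [hd]; positivity
  obtain ⟨p₁, hp₁2, hp₁⟩ := exists_large (CC r) (η / 2) (by positivity)
  refine ⟨d, hd0, p₁, fun p _ hp χ hχ B β hB hβ => ?_⟩
  have hp1 : (1 : ℝ) ≤ p := by exact_mod_cast (Fact.out : p.Prime).one_le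
  have hp0 : (0 : ℝ) < p := by linarith
  have hCC := hp₁ p (by omega)
  have hBr : (p : ℝ) ≤ (B.card : ℝ) ^ r := by
    calc (p : ℝ) = (p : ℝ) ^ (1 : ℝ) := (Real.rpow_one _).symm
      _ ≤ (p : ℝ) ^ (ε * r) := Real.rpow_le_rpow_of_exponent_le hp1 hrε
      _ = ((p : ℝ) ^ ε) ^ r := by rw [Real.rpow_mul hp0.le, Real.rpow_natCast]
      _ ≤ (B.card : ℝ) ^ r := pow_le_pow_left₀ (by positivity) hB r
  have hBc : (0 : ℝ) < B.card := lt_of_lt_of_le (by positivity) hB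
  have hG := m1 χ hχ r hr1 B hBr β hβ
  have h5 := large_values (univ : Finset (ZMod p)) (fun z => ‖∑ b ∈ B, β b * χ (z + b)‖)
    (fun z _ => norm_nonneg _) ((p : ℝ) ^ (-d) * B.card) (by positivity) (2 * r)
  generalize ((univ.filter fun z : ZMod p => (p : ℝ) ^ (-d) * B.card <
        ‖∑ b ∈ B, β b * χ (z + b)‖).card : ℝ) = N at h5 ⊢
  have h6 : N * ((p : ℝ) ^ (-d)) ^ (2 * r) ≤ CC r * Real.sqrt p := by
    have h7 : (N * ((p : ℝ) ^ (-d)) ^ (2 * r)) * (B.card : ℝ) ^ (2 * r) ≤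
        (CC r * Real.sqrt p) * (B.card : ℝ) ^ (2 * r) := by
      calc _ = N * ((p : ℝ) ^ (-d) * B.card) ^ (2 * r) := by rw [mul_pow]; ring
        _ ≤ _ := h5.trans hG
        _ = _ := by ring
    exact le_of_mul_le_mul_right h7 (by positivity)
  have e1 : ((p : ℝ) ^ (-d)) ^ (2 * r) = (p : ℝ) ^ (-(η / 2)) := by
    rw [← Real.rpow_natCast, ← Real.rpow_mul hp0.le]
    congr 1
    rw [hd]
    push_cast
    field_simp
    ring
  rw [e1] at h6
  calc N = (N * (p : ℝ) ^ (-(η / 2))) * (p : ℝ) ^ (η / 2) := by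
        rw [mul_assoc, ← Real.rpow_add hp0, neg_add_cancel, Real.rpow_zero, mul_one]
    _ ≤ (CC r * Real.sqrt p) * (p : ℝ) ^ (η / 2) := mul_le_mul_of_nonneg_right h6 (by positivity)
    _ ≤ ((p : ℝ) ^ (η / 2) * Real.sqrt p) * (p : ℝ) ^ (η / 2) := by
        have := Real.sqrt_nonneg (p : ℝ)
        gcongr
    _ = (p : ℝ) ^ (1 / 2 + η) := by
        rw [Real.sqrt_eq_rpow, ← Real.rpow_add hp0, ← Real.rpow_add hp0]
        congr 1
        ring

open Classical in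
/-- the counting theorem for all sizes of `S`, with `|Z| ≤ p^{1/2+c}` -/
theorem count_half (ε : ℝ) (hε : 0 < ε) : ∃ c : ℝ, 0 < c ∧ ∃ p₀ : ℕ, ∀ (p : ℕ) [Fact p.Prime],
    p₀ ≤ p → ∀ A T S Z : Finset (ZMod p), (0 : ZMod p) ∉ T → (p : ℝ) ^ ε ≤ A.card →
      (p : ℝ) ^ ε ≤ T.card → (p : ℝ) ^ (1 / 2 - c) ≤ S.card →
      (Z.card : ℝ) ≤ (p : ℝ) ^ (1 / 2 + c) →
      ∑ s ∈ S, (((A ×ˢ T).filter fun r => (r.1 + s) / r.2 ∈ Z).card : ℝ) ≤
        (p : ℝ) ^ (-c) * (A.card * S.card * T.card) := by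
  obtain ⟨e, he⟩ : ∃ e : ℝ, e = min ε (1 / 4) := ⟨_, rfl⟩
  have he0 : 0 < e := by rw [he]; positivity
  have he1 : e ≤ ε := by rw [he]; exact min_le_left _ _
  have he2 : e ≤ 1 / 4 := by rw [he]; exact min_le_right _ _
  obtain ⟨c₁, hc₁, p₁, hcount⟩ := count e he0
  obtain ⟨c, hc⟩ : ∃ c : ℝ, c = min (c₁ / 2) (1 / 8) := ⟨_, rfl⟩
  have hc0 : 0 < c := by rw [hc]; positivity
  have hc1 : c ≤ c₁ / 2 := by rw [hc]; exact min_le_left _ _
  have hc2 : c ≤ 1 / 8 := by rw [hc]; exact min_le_right _ _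
  refine ⟨c, hc0, p₁, fun p _ hp A T S Z hT0 hA hT hS hZ => ?_⟩
  have hp1 : (1 : ℝ) ≤ p := by exact_mod_cast (Fact.out : p.Prime).one_le
  have hp0 : (0 : ℝ) < p := by linarith
  have hmono : ∀ x y : ℝ, x ≤ y → (p : ℝ) ^ x ≤ (p : ℝ) ^ y := fun x y h =>
    Real.rpow_le_rpow_of_exponent_le hp1 h
  rcases le_total (S.card : ℝ) ((p : ℝ) ^ (1 - e)) with hs | hs
  · refine (hcount p hp A T S Z hT0 ((hmono _ _ he1).trans hA) ((hmono _ _ he1).trans hT) hs
      ?_).trans ?_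
    · calc (Z.card : ℝ) ≤ (p : ℝ) ^ (1 / 2 + c) := hZ
        _ ≤ (p : ℝ) ^ (c₁ + (1 / 2 - c)) := hmono _ _ (by linarith)
        _ = (p : ℝ) ^ c₁ * (p : ℝ) ^ (1 / 2 - c) := Real.rpow_add hp0 _ _
        _ ≤ _ := mul_le_mul_of_nonneg_left hS (by positivity)
    · exact mul_le_mul_of_nonneg_right (hmono _ _ (by linarith)) (by positivity)
  · -- large `S`
    have h1 : ∑ s ∈ S, (((A ×ˢ T).filter fun r => (r.1 + s) / r.2 ∈ Z).card : ℝ) ≤
        (A.card * T.card) * Z.card := by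
      have h2 : ∑ s ∈ S, (((A ×ˢ T).filter fun r => (r.1 + s) / r.2 ∈ Z).card : ℝ) =
          ∑ r ∈ A ×ˢ T, ((S.filter fun s => (r.1 + s) / r.2 ∈ Z).card : ℝ) := by
        simp only [card_filter, Nat.cast_sum]
        exact sum_comm
      rw [h2]
      have h3 : ∀ r ∈ A ×ˢ T, ((S.filter fun s => (r.1 + s) / r.2 ∈ Z).card : ℝ) ≤ Z.card := by
        intro r hr
        rw [mem_product] at hr
        have n2 : r.2 ≠ 0 := fun h => hT0 (h ▸ hr.2)
        have h4 : (S.filter fun s => (r.1 + s) / r.2 ∈ Z).card ≤ Z.card := by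
          refine card_le_card_of_injOn (fun s => (r.1 + s) / r.2) ?_ ?_
          · intro s hs
            exact (mem_filter.1 hs).2
          · intro s _ s' _ h
            exact add_left_cancel ((div_left_inj' n2).1 h)
        exact_mod_cast h4
      refine (sum_le_card_nsmul _ _ _ h3).trans (le_of_eq ?_)
      rw [nsmul_eq_mul, card_product]
      push_cast
      ring
    refine h1.trans ?_
    have h2 : (Z.card : ℝ) ≤ (p : ℝ) ^ (-c) * S.card := by
      calc (Z.card : ℝ) ≤ (p : ℝ) ^ (1 / 2 + c) := hZ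
        _ ≤ (p : ℝ) ^ (-c + (1 - e)) := hmono _ _ (by linarith)
        _ = (p : ℝ) ^ (-c) * (p : ℝ) ^ (1 - e) := Real.rpow_add hp0 _ _
        _ ≤ _ := mul_le_mul_of_nonneg_left hs (by positivity)
    calc ((A.card : ℝ) * T.card) * Z.card ≤ (A.card * T.card) * ((p : ℝ) ^ (-c) * S.card) :=
          mul_le_mul_of_nonneg_left h2 (by positivity)
      _ = _ := by ring

/-- sums over four sets -/
theorem four_sets (ε : ℝ) (hε : 0 < ε) : ∃ c : ℝ, 0 < c ∧ ∃ δ : ℝ, 0 < δ ∧ ∃ p₀ : ℕ,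
    ∀ (p : ℕ) [Fact p.Prime], p₀ ≤ p → ∀ χ : DirichletCharacter ℂ p, χ ≠ 1 →
    ∀ (A B S T : Finset (ZMod p)) (β : ZMod p → ℂ), (p : ℝ) ^ ε ≤ A.card →
      (p : ℝ) ^ ε ≤ B.card → (p : ℝ) ^ ε ≤ T.card → (p : ℝ) ^ (1 / 2 - c) ≤ S.card →
      (∀ b, ‖β b‖ ≤ 1) →
      ∑ a ∈ A, ∑ s ∈ S, ∑ t ∈ T, ‖∑ b ∈ B, β b * χ (a + s + t * b)‖ ≤
        (p : ℝ) ^ (-δ) * (A.card * S.card * T.card * B.card) := by
  classical
  obtain ⟨c, hc, p₁, hcount⟩ := count_half (ε / 2) (by positivity)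
  obtain ⟨d, hd, p₂, hLV⟩ := LV ε c hε hc
  obtain ⟨δ, hδ⟩ : ∃ δ : ℝ, δ = min (min c d) ε / 2 := ⟨_, rfl⟩
  have hδ0 : 0 < δ := by rw [hδ]; positivity
  have hδ1 : 2 * δ ≤ c := by rw [hδ]; linarith [min_le_left (min c d) ε, min_le_left c d]
  have hδ2 : 2 * δ ≤ d := by rw [hδ]; linarith [min_le_left (min c d) ε, min_le_right c d]
  have hδ3 : 2 * δ ≤ ε := by rw [hδ]; linarith [min_le_right (min c d) ε]
  obtain ⟨p₃, hp₃2, hp₃⟩ := exists_large 3 (min δ (ε / 2)) (by positivity)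
  refine ⟨c, hc, δ, hδ0, p₁ + p₂ + p₃, fun p _ hp χ hχ A B S T β hA hB hT hS hβ => ?_⟩
  have hp1 : (1 : ℝ) ≤ p := by exact_mod_cast (Fact.out : p.Prime).one_le
  have hp0 : (0 : ℝ) < p := by linarith
  have hmono : ∀ x y : ℝ, x ≤ y → (p : ℝ) ^ x ≤ (p : ℝ) ^ y := fun x y h =>
    Real.rpow_le_rpow_of_exponent_le hp1 h
  have h3 := hp₃ p (by omega)
  have h3δ : 3 ≤ (p : ℝ) ^ δ := h3.trans (hmono _ _ (min_le_left _ _))
  have h3ε : 3 ≤ (p : ℝ) ^ (ε / 2) := h3.trans (hmono _ _ (min_le_right _ _))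
  set T' := T.erase 0 with hT'
  have hT'0 : (0 : ZMod p) ∉ T' := notMem_erase 0 T
  have hTT' : (T.card : ℝ) - 1 ≤ T'.card := by
    have h4 := pred_card_le_card_erase (s := T) (a := (0 : ZMod p))
    rw [← hT'] at h4
    have h5 : T.card ≤ T'.card + 1 := by omega
    have h6 : (T.card : ℝ) ≤ T'.card + 1 := by exact_mod_cast h5
    linarith
  have hT'c : (p : ℝ) ^ (ε / 2) ≤ T'.card := by
    have h4 : (p : ℝ) ^ ε = (p : ℝ) ^ (ε / 2) * (p : ℝ) ^ (ε / 2) := by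
      rw [← Real.rpow_add hp0, add_halves]
    nlinarith
  set Z := univ.filter fun z : ZMod p => (p : ℝ) ^ (-d) * B.card <
    ‖∑ b ∈ B, β b * χ (z + b)‖ with hZ
  have hZc := hLV p (by omega) χ hχ B β hB hβ
  rw [← hZ] at hZc
  have hcnt := hcount p (by omega) A T' S Z hT'0 ((hmono _ _ (by linarith)).trans hA) hT'c hS hZc
  -- trivial bound
  have htriv : ∀ x : ZMod p → ZMod p, ‖∑ b ∈ B, β b * χ (x b)‖ ≤ B.card := by
    intro x
    refine (norm_sum_le _ _).trans ?_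
    refine (sum_le_card_nsmul _ _ 1 fun b _ => ?_).trans (by simp)
    rw [norm_mul]
    exact mul_le_one₀ (hβ b) (norm_nonneg _) (χ.norm_le_one _)
  have hin : ∀ a s t, t ≠ 0 → ‖∑ b ∈ B, β b * χ (a + s + t * b)‖ =
      ‖∑ b ∈ B, β b * χ ((a + s) / t + b)‖ := by
    intro a s t ht
    have e : ∑ b ∈ B, β b * χ (a + s + t * b) = χ t * ∑ b ∈ B, β b * χ ((a + s) / t + b) := by
      rw [mul_sum]
      refine sum_congr rfl fun b _ => ?_
      have e2 : χ (a + s + t * b) = χ t * χ ((a + s) / t + b) := by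
        rw [← map_mul]
        congr 1
        field_simp
      rw [e2]
      ring
    rw [e, norm_mul, norm_unit χ ht, one_mul]
  have hpt : ∀ a s, ∀ t ∈ T', ‖∑ b ∈ B, β b * χ (a + s + t * b)‖ ≤
      (if (a + s) / t ∈ Z then (B.card : ℝ) else 0) + (p : ℝ) ^ (-d) * B.card := by
    intro a s t ht
    have ht0 : t ≠ 0 := fun h => hT'0 (h ▸ ht)
    rw [hin a s t ht0]
    by_cases hz : (a + s) / t ∈ Z
    · rw [if_pos hz]
      have h4 := htriv (fun b => (a + s) / t + b)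
      have h5 : 0 ≤ (p : ℝ) ^ (-d) * B.card := by positivity
      linarith
    · rw [if_neg hz, zero_add]
      by_contra hcon
      exact hz (mem_filter.2 ⟨mem_univ _, not_le.1 hcon⟩)
  have hone : ∀ a s, ∑ t ∈ T, ‖∑ b ∈ B, β b * χ (a + s + t * b)‖ ≤
      (∑ t ∈ T', if (a + s) / t ∈ Z then (B.card : ℝ) else 0) +
        T.card * ((p : ℝ) ^ (-d) * B.card) + B.card := by
    intro a s
    have h4 : ∑ t ∈ T, ‖∑ b ∈ B, β b * χ (a + s + t * b)‖ ≤
        (∑ t ∈ T', ‖∑ b ∈ B, β b * χ (a + s + t * b)‖) + B.card := by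
      by_cases h0 : (0 : ZMod p) ∈ T
      · rw [← add_sum_erase T _ h0, add_comm]
        exact add_le_add le_rfl (htriv _)
      · rw [hT', erase_eq_of_notMem h0]
        have : (0 : ℝ) ≤ B.card := Nat.cast_nonneg _
        linarith
    have h5 : ∑ t ∈ T', ‖∑ b ∈ B, β b * χ (a + s + t * b)‖ ≤
        (∑ t ∈ T', if (a + s) / t ∈ Z then (B.card : ℝ) else 0) +
          T'.card * ((p : ℝ) ^ (-d) * B.card) := by
      refine (sum_le_sum fun t ht => hpt a s t ht).trans (le_of_eq ?_)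
      rw [sum_add_distrib, sum_const, nsmul_eq_mul]
    have h6 : (T'.card : ℝ) ≤ T.card := by exact_mod_cast card_erase_le
    have h7 : (T'.card : ℝ) * ((p : ℝ) ^ (-d) * B.card) ≤ T.card * ((p : ℝ) ^ (-d) * B.card) :=
      mul_le_mul_of_nonneg_right h6 (by positivity)
    linarith
  have hsum : ∑ a ∈ A, ∑ s ∈ S, ∑ t ∈ T, ‖∑ b ∈ B, β b * χ (a + s + t * b)‖ ≤
      B.card * (∑ s ∈ S, (((A ×ˢ T').filter fun r => (r.1 + s) / r.2 ∈ Z).card : ℝ)) +
        A.card * S.card * (T.card * ((p : ℝ) ^ (-d) * B.card) + B.card) := by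
    refine (sum_le_sum fun a _ => sum_le_sum fun s _ => hone a s).trans (le_of_eq ?_)
    simp only [sum_add_distrib, sum_const, nsmul_eq_mul]
    have h4 : ∑ a ∈ A, ∑ s ∈ S, ∑ t ∈ T', (if (a + s) / t ∈ Z then (B.card : ℝ) else 0) =
        B.card * ∑ s ∈ S, (((A ×ˢ T').filter fun r => (r.1 + s) / r.2 ∈ Z).card : ℝ) := by
      rw [sum_comm, mul_sum]
      refine sum_congr rfl fun s _ => ?_
      rw [card_filter]
      push_cast
      rw [Finset.sum_product, mul_sum]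
      refine sum_congr rfl fun a _ => ?_
      rw [mul_sum]
      refine sum_congr rfl fun t _ => ?_
      rw [mul_ite, mul_one, mul_zero]
    rw [h4]
    ring
  refine hsum.trans ?_
  have hTc : (p : ℝ) ^ (2 * δ) ≤ T.card := (hmono _ _ (by linarith)).trans hT
  have hT'T : (T'.card : ℝ) ≤ T.card := by exact_mod_cast card_erase_le
  have f1 : (B.card : ℝ) * (∑ s ∈ S, (((A ×ˢ T').filter fun r => (r.1 + s) / r.2 ∈ Z).card : ℝ)) ≤
      (p : ℝ) ^ (-(2 * δ)) * (A.card * S.card * T.card * B.card) := by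
    calc _ ≤ (B.card : ℝ) * ((p : ℝ) ^ (-c) * (A.card * S.card * T'.card)) :=
          mul_le_mul_of_nonneg_left hcnt (Nat.cast_nonneg _)
      _ ≤ (B.card : ℝ) * ((p : ℝ) ^ (-(2 * δ)) * (A.card * S.card * T.card)) := by
          have := hmono (-c) (-(2 * δ)) (by linarith)
          gcongr
      _ = _ := by ring
  have f2 : (A.card : ℝ) * S.card * (T.card * ((p : ℝ) ^ (-d) * B.card)) ≤
      (p : ℝ) ^ (-(2 * δ)) * (A.card * S.card * T.card * B.card) := by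
    calc _ = (p : ℝ) ^ (-d) * (A.card * S.card * T.card * B.card) := by ring
      _ ≤ _ := mul_le_mul_of_nonneg_right (hmono _ _ (by linarith)) (by positivity)
  have f3 : (A.card : ℝ) * S.card * B.card ≤
      (p : ℝ) ^ (-(2 * δ)) * (A.card * S.card * T.card * B.card) := by
    have h4 : 1 ≤ (p : ℝ) ^ (-(2 * δ)) * T.card := by
      calc (1 : ℝ) = (p : ℝ) ^ (-(2 * δ)) * (p : ℝ) ^ (2 * δ) := by
            rw [← Real.rpow_add hp0, neg_add_cancel, Real.rpow_zero]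
        _ ≤ _ := mul_le_mul_of_nonneg_left hTc (by positivity)
    calc (A.card : ℝ) * S.card * B.card = (A.card * S.card * B.card) * 1 := (mul_one _).symm
      _ ≤ (A.card * S.card * B.card) * ((p : ℝ) ^ (-(2 * δ)) * T.card) :=
          mul_le_mul_of_nonneg_left h4 (by positivity)
      _ = _ := by ring
  have f4 : 3 * (p : ℝ) ^ (-(2 * δ)) ≤ (p : ℝ) ^ (-δ) := by
    calc 3 * (p : ℝ) ^ (-(2 * δ)) ≤ (p : ℝ) ^ δ * (p : ℝ) ^ (-(2 * δ)) :=
          mul_le_mul_of_nonneg_right h3δ (by positivity)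
      _ = _ := by
          rw [← Real.rpow_add hp0]
          congr 1
          ring
  have f5 := mul_le_mul_of_nonneg_right f4
    (show (0 : ℝ) ≤ A.card * S.card * T.card * B.card by positivity)
  rw [mul_add]
  linarith

/-- one set with few sums with some set, the other nearly invariant under many dilations -/
theorem structured (ε : ℝ) (hε : 0 < ε) : ∃ c : ℝ, 0 < c ∧ ∃ δ : ℝ, 0 < δ ∧ ∃ p₀ : ℕ,
    ∀ (p : ℕ) [Fact p.Prime], p₀ ≤ p → ∀ χ : DirichletCharacter ℂ p, χ ≠ 1 →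
    ∀ U V A T : Finset (ZMod p), (p : ℝ) ^ (1 / 2 - c) ≤ U.card → (p : ℝ) ^ ε ≤ V.card →
      (p : ℝ) ^ ε ≤ A.card → (p : ℝ) ^ ε ≤ T.card →
      ((U + A).card : ℝ) ≤ (p : ℝ) ^ c * U.card →
      (∀ t ∈ T, t ≠ 0 ∧ ((V \ (t • V)).card : ℝ) ≤ (p : ℝ) ^ (-ε) * V.card) →
      ∑ u ∈ U, ‖∑ v ∈ V, χ (u + v)‖ ≤ (p : ℝ) ^ (-δ) * (U.card * V.card) := by
  classical
  obtain ⟨c₁, hc₁, p₁, hcount⟩ := count_half ε hε
  obtain ⟨c, hc⟩ : ∃ c : ℝ, c = c₁ / 4 := ⟨_, rfl⟩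
  have hc0 : 0 < c := by rw [hc]; positivity
  obtain ⟨d, hd, p₂, hLV⟩ := LV ε c₁ hε hc₁
  obtain ⟨δ, hδ⟩ : ∃ δ : ℝ, δ = min (min c d) ε / 4 := ⟨_, rfl⟩
  have hδ0 : 0 < δ := by rw [hδ]; positivity
  have hδ1 : 4 * δ ≤ c := by rw [hδ]; linarith [min_le_left (min c d) ε, min_le_left c d]
  have hδ2 : 4 * δ ≤ d := by rw [hδ]; linarith [min_le_left (min c d) ε, min_le_right c d]
  have hδ3 : 4 * δ ≤ ε := by rw [hδ]; linarith [min_le_right (min c d) ε]
  obtain ⟨p₃, hp₃2, hp₃⟩ := exists_large 8 δ hδ0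
  refine ⟨c, hc0, δ, hδ0, p₁ + p₂ + p₃, fun p _ hp χ hχ U V A T hU hV hA hT hUA hVT => ?_⟩
  have hp1 : (1 : ℝ) ≤ p := by exact_mod_cast (Fact.out : p.Prime).one_le
  have hp0 : (0 : ℝ) < p := by linarith
  have hmono : ∀ x y : ℝ, x ≤ y → (p : ℝ) ^ x ≤ (p : ℝ) ^ y := fun x y h =>
    Real.rpow_le_rpow_of_exponent_le hp1 h
  have h8 : 8 ≤ (p : ℝ) ^ δ := hp₃ p (by omega)
  have hVc : (0 : ℝ) < V.card := lt_of_lt_of_le (by positivity) hV
  have hAc : (0 : ℝ) < A.card := lt_of_lt_of_le (by positivity) hA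
  have hTc : (0 : ℝ) < T.card := lt_of_lt_of_le (by positivity) hT
  have hUc : (0 : ℝ) < U.card := lt_of_lt_of_le (by positivity) hU
  by_contra hcon
  have hcon := not_le.1 hcon
  set F : ZMod p → ℝ := fun z => ‖∑ v ∈ V, χ (z + v)‖ with hF
  have hFV : ∀ z, F z ≤ V.card := fun z => by
    refine (norm_sum_le _ _).trans ?_
    exact (sum_le_card_nsmul _ _ 1 fun b _ => χ.norm_le_one _).trans (by simp)
  set Z := univ.filter fun z : ZMod p => (p : ℝ) ^ (-d) * V.card <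
    ‖∑ b ∈ V, 1 * χ (z + b)‖ with hZ
  have hZc := hLV p (by omega) χ hχ V (fun _ => 1) hV (fun _ => by simp)
  rw [← hZ] at hZc
  set θ : ℝ := (p : ℝ) ^ (-δ) * V.card / 2 with hθ
  set U' := U.filter fun u => θ < F u with hU'
  have hU'c : (p : ℝ) ^ (-δ) * U.card ≤ 2 * U'.card := by
    have h1 : ∑ u ∈ U, F u ≤ U'.card * V.card + U.card * θ := by
      rw [← sum_filter_add_sum_filter_not U (fun u => θ < F u)]
      refine add_le_add ?_ ?_
      · rw [← nsmul_eq_mul]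
        exact sum_le_card_nsmul _ _ _ fun u _ => hFV u
      · refine (sum_le_card_nsmul _ _ θ fun u hu => not_lt.1 (mem_filter.1 hu).2).trans ?_
        rw [nsmul_eq_mul]
        refine mul_le_mul_of_nonneg_right ?_ (by positivity)
        exact_mod_cast card_filter_le U _
    have h2 : ((p : ℝ) ^ (-δ) * U.card) * V.card ≤ (2 * U'.card) * V.card := by
      rw [hθ] at h1
      nlinarith
    exact le_of_mul_le_mul_right h2 hVc
  -- near invariance of the large values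
  have hinv : ∀ u ∈ U', ∀ t ∈ T, u / t ∈ Z := by
    intro u hu t ht
    obtain ⟨ht0, htV⟩ := hVT t ht
    have h1 := (mem_filter.1 hu).2
    refine mem_filter.2 ⟨mem_univ _, ?_⟩
    have e1 : χ t * ∑ b ∈ V, 1 * χ (u / t + b) = ∑ w ∈ t • V, χ (u + w) := by
      rw [mul_sum]
      have h2 : (t • V) = V.image fun v => t * v := rfl
      rw [h2, sum_image (fun a _ b _ h => mul_left_cancel₀ ht0 h)]
      refine sum_congr rfl fun b _ => ?_
      rw [one_mul, ← map_mul]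
      congr 1
      field_simp
    have e2 : ‖∑ b ∈ V, 1 * χ (u / t + b)‖ = ‖∑ w ∈ t • V, χ (u + w)‖ := by
      rw [← e1, norm_mul, norm_unit χ ht0, one_mul]
    rw [e2]
    have hcard : (t • V).card = V.card := card_smul' t ht0 V
    have e3 : ∑ v ∈ V, χ (u + v) + ∑ v ∈ (t • V) \ V, χ (u + v) =
        ∑ w ∈ t • V, χ (u + w) + ∑ v ∈ V \ (t • V), χ (u + v) := by
      have g1 := sum_sdiff (inter_subset_left : V ∩ (t • V) ⊆ V) (f := fun v => χ (u + v))
      have g2 := sum_sdiff (inter_subset_right : V ∩ (t • V) ⊆ t • V) (f := fun v => χ (u + v))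
      rw [sdiff_inter_self_left] at g1
      rw [sdiff_inter_self_right] at g2
      rw [← g1, ← g2]
      ring
    have hsd : ((t • V) \ V).card = (V \ (t • V)).card := by
      have g1 := card_sdiff_add_card_inter V (t • V)
      have g2 := card_sdiff_add_card_inter (t • V) V
      rw [inter_comm] at g2
      omega
    have hbd : ∀ W : Finset (ZMod p), ‖∑ v ∈ W, χ (u + v)‖ ≤ W.card := fun W => by
      refine (norm_sum_le _ _).trans ?_
      exact (sum_le_card_nsmul _ _ 1 fun b _ => χ.norm_le_one _).trans (by simp)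
    have h3 : F u ≤ ‖∑ w ∈ t • V, χ (u + w)‖ + 2 * ((V \ (t • V)).card : ℝ) := by
      have e4 : ∑ v ∈ V, χ (u + v) = ∑ w ∈ t • V, χ (u + w) + ∑ v ∈ V \ (t • V), χ (u + v) -
          ∑ v ∈ (t • V) \ V, χ (u + v) := eq_sub_of_add_eq e3
      have g1 : F u = ‖∑ w ∈ t • V, χ (u + w) + ∑ v ∈ V \ (t • V), χ (u + v) -
          ∑ v ∈ (t • V) \ V, χ (u + v)‖ := by rw [← e4]
      rw [g1]
      refine (norm_sub_le _ _).trans ?_
      have g2 := norm_add_le (∑ w ∈ t • V, χ (u + w)) (∑ v ∈ V \ (t • V), χ (u + v))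
      have g3 := hbd (V \ (t • V))
      have g4 := hbd ((t • V) \ V)
      rw [hsd] at g4
      linarith
    -- numbers
    have h4 : (p : ℝ) ^ (-d) * V.card + 2 * ((p : ℝ) ^ (-ε) * V.card) ≤ θ := by
      have g1 : (p : ℝ) ^ (-d) ≤ (p : ℝ) ^ (-(4 * δ)) := hmono _ _ (by linarith)
      have g2 : (p : ℝ) ^ (-ε) ≤ (p : ℝ) ^ (-(4 * δ)) := hmono _ _ (by linarith)
      have g3 : 6 * (p : ℝ) ^ (-(4 * δ)) ≤ (p : ℝ) ^ (-δ) := by
        calc 6 * (p : ℝ) ^ (-(4 * δ)) ≤ (p : ℝ) ^ δ * (p : ℝ) ^ (-(4 * δ)) :=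
              mul_le_mul_of_nonneg_right (by linarith) (by positivity)
          _ = (p : ℝ) ^ (-(3 * δ)) := by
              rw [← Real.rpow_add hp0]
              congr 1
              ring
          _ ≤ _ := hmono _ _ (by linarith)
      have g4 : ((p : ℝ) ^ (-d) + 2 * (p : ℝ) ^ (-ε)) * V.card ≤
          ((p : ℝ) ^ (-δ) / 2) * V.card :=
        mul_le_mul_of_nonneg_right (by linarith) hVc.le
      rw [hθ]
      linarith
    linarith
  -- the count
  have hS1 : (U.card : ℝ) ≤ (U + A).card := by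
    have hAne : A.Nonempty := by rw [← card_pos]; exact_mod_cast hAc
    exact_mod_cast card_le_card_add_right hAne
  have hT0 : (0 : ZMod p) ∉ T := fun h => (hVT 0 h).1 rfl
  have hcnt := hcount p (by omega) (-A) T (U + A) Z hT0 (by rw [card_neg]; exact hA) hT
    ((hmono _ _ (by linarith)).trans (hU.trans hS1)) hZc
  rw [card_neg] at hcnt
  have hlow : (U'.card : ℝ) * A.card * T.card ≤
      ∑ s ∈ U + A, ((((-A) ×ˢ T).filter fun r => (r.1 + s) / r.2 ∈ Z).card : ℝ) := by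
    have h1 : ∑ s ∈ U + A, ((((-A) ×ˢ T).filter fun r => (r.1 + s) / r.2 ∈ Z).card : ℝ) =
        ((((U + A) ×ˢ ((-A) ×ˢ T)).filter fun r => (r.2.1 + r.1) / r.2.2 ∈ Z).card : ℝ) := by
      simp only [card_filter, Nat.cast_sum]
      rw [Finset.sum_product (U + A)]
    rw [h1]
    have h2 : (U' ×ˢ (A ×ˢ T)).card ≤
        (((U + A) ×ˢ ((-A) ×ˢ T)).filter fun r => (r.2.1 + r.1) / r.2.2 ∈ Z).card := by
      refine card_le_card_of_injOn (fun r => (r.1 + r.2.1, (-r.2.1, r.2.2))) ?_ ?_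
      · intro r hr
        rw [mem_coe, mem_product, mem_product] at hr
        refine mem_coe.2 (mem_filter.2 ⟨mem_product.2 ⟨add_mem_add (mem_filter.1 hr.1).1 hr.2.1,
          mem_product.2 ⟨neg_mem_neg hr.2.1, hr.2.2⟩⟩, ?_⟩)
        simp only
        rw [show -r.2.1 + (r.1 + r.2.1) = r.1 by ring]
        exact hinv _ hr.1 _ hr.2.2
      · intro r _ r' _ h
        simp only [Prod.mk.injEq, neg_inj] at h
        obtain ⟨g1, g2, g3⟩ := h
        rw [g2] at g1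
        exact Prod.ext (add_right_cancel g1) (Prod.ext g2 g3)
    rw [card_product, card_product] at h2
    have h3 : (((U'.card * (A.card * T.card) : ℕ)) : ℝ) ≤
        ((((U + A) ×ˢ ((-A) ×ˢ T)).filter fun r => (r.2.1 + r.1) / r.2.2 ∈ Z).card : ℝ) := by
      exact_mod_cast h2
    push_cast at h3
    linarith
  have h1 : (U'.card : ℝ) * A.card * T.card ≤
      (p : ℝ) ^ (-c₁) * (A.card * ((p : ℝ) ^ c * U.card) * T.card) := by
    refine (hlow.trans hcnt).trans ?_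
    gcongr
  have h2 : (U'.card : ℝ) ≤ (p : ℝ) ^ (-c₁) * ((p : ℝ) ^ c * U.card) := by
    have h3 : (U'.card : ℝ) * (A.card * T.card) ≤
        ((p : ℝ) ^ (-c₁) * ((p : ℝ) ^ c * U.card)) * (A.card * T.card) := by
      refine le_trans (le_of_eq ?_) (h1.trans (le_of_eq ?_))
      · ring
      · ring
    exact le_of_mul_le_mul_right h3 (by positivity)
  have h3 : (p : ℝ) ^ (-c₁) * ((p : ℝ) ^ c * U.card) = (p : ℝ) ^ (-(3 * c)) * U.card := by
    rw [← mul_assoc, ← Real.rpow_add hp0]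
    congr 2
    rw [hc]
    ring
  rw [h3] at h2
  have h4 : (p : ℝ) ^ (-δ) * U.card ≤ (2 * (p : ℝ) ^ (-(3 * c))) * U.card := by
    linarith
  have h5 := le_of_mul_le_mul_right h4 hUc
  have h6 : 2 * (p : ℝ) ^ (-(3 * c)) < (p : ℝ) ^ (-δ) := by
    calc 2 * (p : ℝ) ^ (-(3 * c)) ≤ 2 * (p : ℝ) ^ (-(2 * δ)) := by
          have := hmono (-(3 * c)) (-(2 * δ)) (by linarith)
          linarith
      _ < (p : ℝ) ^ δ * (p : ℝ) ^ (-(2 * δ)) := mul_lt_mul_of_pos_right (by linarith) (by positivity)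
      _ = _ := by
          rw [← Real.rpow_add hp0]
          congr 1
          ring
  linarith

end Pool.Agent.Y881.PG
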