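import Pool.Agent.Y881.PG.Main

/-! # Almost all affine and Möbius images -/

set_option autoImplicit false

namespace Pool.Agent.Y881.PG

open Finset Pool.Agent.H471R4.BW Pool.Agent.H435R3.Paley

variable {p : ℕ} [Fact p.Prime]

/-- affine image of the second set -/
noncomputable def S1 (χ : DirichletCharacter ℂ p) (A B : Finset (ZMod p)) (s t : ZMod p) : ℂ :=
  ∑ a ∈ A, ∑ b ∈ B, χ (a + s + t * b)

/-- Möbius image of the second set -/
noncomputable def S2 (χ : DirichletCharacter ℂ p) (A B : Finset (ZMod p)) (x y v : ZMod p) : ℂ :=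
  ∑ a ∈ A, ∑ b ∈ B, χ (a + x + y / (b + v))

/-- the inner sums -/
noncomputable def H (χ : DirichletCharacter ℂ p) (B : Finset (ZMod p)) (v z : ZMod p) : ℝ :=
  ‖∑ b ∈ B, χ (z⁻¹ + v + b) * (starRingEnd ℂ) (χ (v + b))‖

lemma conj_eq (χ : DirichletCharacter ℂ p) {w : ZMod p} (hw : w ≠ 0) :
    (starRingEnd ℂ) (χ w) = χ w⁻¹ := by
  have h1 : χ w * χ w⁻¹ = 1 := by rw [← map_mul, mul_inv_cancel₀ hw, map_one]
  have h2 : χ w * (starRingEnd ℂ) (χ w) = 1 := by
    rw [Complex.mul_conj, Complex.normSq_eq_norm_sq, norm_unit χ hw]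
    norm_num
  have h3 : χ w ≠ 0 := fun h => by rw [h, zero_mul] at h1; exact zero_ne_one h1
  exact mul_left_cancel₀ h3 (h2.trans h1.symm)

lemma aff_le (χ : DirichletCharacter ℂ p) (A B : Finset (ZMod p)) (s t : ZMod p) (ht : t ≠ 0) :
    ‖S1 χ A B s t‖ ≤ ∑ a ∈ A, ‖∑ b ∈ B, 1 * χ ((a + s) / t + b)‖ := by
  unfold S1
  refine (norm_sum_le _ _).trans (sum_le_sum fun a _ => ?_)
  have e : ∑ b ∈ B, χ (a + s + t * b) = χ t * ∑ b ∈ B, 1 * χ ((a + s) / t + b) := by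
    rw [mul_sum]
    refine sum_congr rfl fun b _ => ?_
    rw [one_mul, ← map_mul]
    congr 1
    field_simp
  rw [e, norm_mul, norm_unit χ ht, one_mul]

lemma mob_one (χ : DirichletCharacter ℂ p) (B : Finset (ZMod p)) (a x y v : ZMod p) (_hy : y ≠ 0) :
    ‖∑ b ∈ B, χ (a + x + y / (b + v))‖ ≤ H χ B v ((a + x) / y) + 1 := by
  classical
  obtain ⟨c, hc⟩ : ∃ c : ZMod p, c = a + x := ⟨_, rfl⟩
  rw [← hc]
  have hsplit := (sum_filter_add_sum_filter_not B (fun b => v + b ≠ 0)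
    (fun b => χ (c + y / (b + v)))).symm
  have hH : H χ B v (c / y) = ‖∑ b ∈ B.filter (fun b => v + b ≠ 0),
      χ ((c / y)⁻¹ + v + b) * (starRingEnd ℂ) (χ (v + b))‖ := by
    unfold H
    congr 1
    rw [sum_filter]
    refine sum_congr rfl fun b _ => ?_
    split_ifs with h
    · rfl
    · rw [not_not.1 h, χ.map_nonunit not_isUnit_zero, map_zero, mul_zero]
  by_cases hc0 : c = 0
  · -- the degenerate case
    have h1 : ‖∑ b ∈ B, χ (c + y / (b + v))‖ ≤ (B.filter (fun b => v + b ≠ 0)).card := by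
      rw [hsplit]
      have h2 : ∑ b ∈ B.filter (fun b => ¬ v + b ≠ 0), χ (c + y / (b + v)) = 0 := by
        refine sum_eq_zero fun b hb => ?_
        have h3 := not_not.1 (mem_filter.1 hb).2
        rw [add_comm] at h3
        rw [h3, div_zero, hc0, add_zero]
        exact χ.map_nonunit not_isUnit_zero
      rw [h2, add_zero]
      refine (norm_sum_le _ _).trans ?_
      refine (sum_le_card_nsmul _ _ 1 fun b _ => χ.norm_le_one _).trans ?_
      simp
    have h4 : H χ B v (c / y) = (B.filter (fun b => v + b ≠ 0)).card := by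
      rw [hH, hc0, zero_div, inv_zero, zero_add]
      have h5 : ∑ b ∈ B.filter (fun b => v + b ≠ 0), χ (v + b) * (starRingEnd ℂ) (χ (v + b)) =
          ((B.filter (fun b => v + b ≠ 0)).card : ℂ) := by
        rw [card_eq_sum_ones]
        push_cast
        refine sum_congr rfl fun b hb => ?_
        rw [Complex.mul_conj, Complex.normSq_eq_norm_sq, norm_unit χ (mem_filter.1 hb).2]
        norm_num
      rw [h5, Complex.norm_natCast]
    rw [h4]
    linarith
  · have h1 : ∑ b ∈ B.filter (fun b => v + b ≠ 0), χ (c + y / (b + v)) =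
        χ c * ∑ b ∈ B.filter (fun b => v + b ≠ 0),
          χ ((c / y)⁻¹ + v + b) * (starRingEnd ℂ) (χ (v + b)) := by
      rw [mul_sum]
      refine sum_congr rfl fun b hb => ?_
      have hb0 := (mem_filter.1 hb).2
      rw [conj_eq χ hb0, ← map_mul, ← map_mul]
      congr 1
      have hb1 : b + v ≠ 0 := by rwa [add_comm]
      field_simp
      ring
    have h2 : ‖∑ b ∈ B.filter (fun b => ¬ v + b ≠ 0), χ (c + y / (b + v))‖ ≤ 1 := by
      refine (norm_sum_le _ _).trans ?_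
      refine (sum_le_card_nsmul _ _ 1 fun b _ => χ.norm_le_one _).trans ?_
      have h3 : (B.filter (fun b => ¬ v + b ≠ 0)).card ≤ 1 := by
        rw [card_le_one]
        intro b hb b' hb'
        have h4 := not_not.1 (mem_filter.1 hb).2
        have h5 := not_not.1 (mem_filter.1 hb').2
        exact add_left_cancel (h4.trans h5.symm)
      rw [nsmul_eq_mul, mul_one]
      exact_mod_cast h3
    rw [hsplit]
    refine (norm_add_le _ _).trans (add_le_add ?_ h2)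
    rw [h1, norm_mul, norm_unit χ hc0, one_mul, hH]

lemma mob_le (χ : DirichletCharacter ℂ p) (A B : Finset (ZMod p)) (x y v : ZMod p) (hy : y ≠ 0) :
    ‖S2 χ A B x y v‖ ≤ (∑ a ∈ A, H χ B v ((a + x) / y)) + A.card := by
  unfold S2
  refine (norm_sum_le _ _).trans ?_
  calc _ ≤ ∑ a ∈ A, (H χ B v ((a + x) / y) + 1) :=
        sum_le_sum fun a _ => mob_one χ B a x y v hy
    _ = _ := by
        rw [sum_add_distrib]
        simp

lemma H_shift (χ : DirichletCharacter ℂ p) (B : Finset (ZMod p)) (r : ℕ) (v : ZMod p) :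
    ∑ z, H χ B v z ^ (2 * r) =
      ∑ x, ‖∑ b ∈ B, χ (x + b) * (starRingEnd ℂ) (χ (v + b))‖ ^ (2 * r) := by
  have h1 := Equiv.sum_comp (Equiv.inv (ZMod p))
    (fun z => ‖∑ b ∈ B, χ (z + v + b) * (starRingEnd ℂ) (χ (v + b))‖ ^ (2 * r))
  have h2 := Equiv.sum_comp (Equiv.addRight v)
    (fun z => ‖∑ b ∈ B, χ (z + b) * (starRingEnd ℂ) (χ (v + b))‖ ^ (2 * r))
  simp only [Equiv.coe_addRight] at h2
  calc ∑ z, H χ B v z ^ (2 * r) =
      ∑ z, ‖∑ b ∈ B, χ ((Equiv.inv (ZMod p)) z + v + b) *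
        (starRingEnd ℂ) (χ (v + b))‖ ^ (2 * r) := rfl
    _ = _ := by rw [h1, h2]

lemma swap_norm (χ : DirichletCharacter ℂ p) (A B : Finset (ZMod p)) (s t : ZMod p) (ht : t ≠ 0) :
    ‖S1 χ A B s t‖ = ‖S1 χ B A (s / t) t⁻¹‖ := by
  have e : S1 χ A B s t = χ t * S1 χ B A (s / t) t⁻¹ := by
    unfold S1
    rw [sum_comm, mul_sum]
    refine sum_congr rfl fun b _ => ?_
    rw [mul_sum]
    refine sum_congr rfl fun a _ => ?_
    rw [← map_mul]
    congr 1
    field_simp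
    ring
  rw [e, norm_mul, norm_unit χ ht, one_mul]

open Classical in
/-- the exceptional affine maps -/
noncomputable def bad1 (χ : DirichletCharacter ℂ p) (A B : Finset (ZMod p)) (δ : ℝ) :
    Finset (ZMod p × ZMod p) :=
  univ.filter fun g => g.2 ≠ 0 ∧ (p : ℝ) ^ (-δ) * (A.card * B.card) < ‖S1 χ A B g.1 g.2‖

open Classical in
/-- the exceptional Möbius maps with pole `-v` -/
noncomputable def bad2 (χ : DirichletCharacter ℂ p) (A B : Finset (ZMod p)) (δ : ℝ) (v : ZMod p) :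
    Finset (ZMod p × ZMod p) :=
  univ.filter fun g => g.2 ≠ 0 ∧ (p : ℝ) ^ (-δ) * (A.card * B.card) < ‖S2 χ A B g.1 g.2 v‖

theorem mobius (ε : ℝ) (hε : 0 < ε) : ∃ δ : ℝ, 0 < δ ∧ ∃ p₀ : ℕ,
    ∀ (p : ℕ) [Fact p.Prime], p₀ ≤ p → ∀ χ : DirichletCharacter ℂ p, χ ≠ 1 →
    ∀ A B : Finset (ZMod p), (p : ℝ) ^ ε ≤ B.card →
      (A.card : ℝ) * (bad1 χ A B δ).card ≤ (p : ℝ) ^ (3 / 2 + ε) ∧
      ∑ v, (A.card : ℝ) * (bad2 χ A B δ v).card ≤ (p : ℝ) ^ (2 + ε) := by
  obtain ⟨r, hr⟩ : ∃ r : ℕ, r = ⌈1 / ε⌉₊ + 1 := ⟨_, rfl⟩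
  have hr1 : 1 ≤ r := by omega
  have hrε : 1 ≤ ε * r := by
    have h1 : 1 / ε ≤ (⌈1 / ε⌉₊ : ℝ) := Nat.le_ceil _
    have h2 : (r : ℝ) = (⌈1 / ε⌉₊ : ℝ) + 1 := by rw [hr]; push_cast; ring
    rw [h2]
    have h3 : 1 = ε * (1 / ε) := by field_simp
    nlinarith
  have hr0 : (1 : ℝ) ≤ r := by exact_mod_cast hr1
  obtain ⟨ε₁, hε₁⟩ : ∃ ε₁ : ℝ, ε₁ = min ε (1 / 2) := ⟨_, rfl⟩
  have he0 : 0 < ε₁ := by rw [hε₁]; positivity
  have he1 : ε₁ ≤ ε := by rw [hε₁]; exact min_le_left _ _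
  have he2 : ε₁ ≤ 1 / 2 := by rw [hε₁]; exact min_le_right _ _
  obtain ⟨d, hd⟩ : ∃ d : ℝ, d = ε₁ / (4 * r) := ⟨_, rfl⟩
  have hd0 : 0 < d := by rw [hd]; positivity
  have hd1 : d ≤ ε := by
    rw [hd, div_le_iff₀ (by positivity)]
    nlinarith
  obtain ⟨p₁, hp₁2, hp₁⟩ := exists_large (3 * CC r) (ε₁ / 2) (by positivity)
  obtain ⟨p₂, hp₂2, hp₂⟩ := exists_large 3 (d / 2) (by positivity)
  refine ⟨d / 2, by positivity, p₁ + p₂, fun p _ hp χ hχ A B hB => ?_⟩
  have hp1 : (1 : ℝ) ≤ p := by exact_mod_cast (Fact.out : p.Prime).one_le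
  have hp0 : (0 : ℝ) < p := by linarith
  have h3C := hp₁ p (by omega)
  have h2p := hp₂ p (by omega)
  have hBr : (p : ℝ) ≤ (B.card : ℝ) ^ r := by
    calc (p : ℝ) = (p : ℝ) ^ (1 : ℝ) := (Real.rpow_one _).symm
      _ ≤ (p : ℝ) ^ (ε * r) := Real.rpow_le_rpow_of_exponent_le hp1 hrε
      _ = ((p : ℝ) ^ ε) ^ r := by rw [Real.rpow_mul hp0.le, Real.rpow_natCast]
      _ ≤ (B.card : ℝ) ^ r := pow_le_pow_left₀ (by positivity) hB r
  obtain ⟨n, hn⟩ : ∃ n : ℝ, n = B.card := ⟨_, rfl⟩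
  obtain ⟨α, hα⟩ : ∃ α : ℝ, α = A.card := ⟨_, rfl⟩
  have hn0 : 0 < n := by
    rw [hn]
    exact lt_of_lt_of_le (by positivity) hB
  have hα0 : 0 ≤ α := by rw [hα]; positivity
  -- the two comparisons of powers
  have hq : (p : ℝ) ^ (-d) * 3 ≤ (p : ℝ) ^ (-(d / 2)) := by
    calc (p : ℝ) ^ (-d) * 3 ≤ (p : ℝ) ^ (-d) * (p : ℝ) ^ (d / 2) :=
          mul_le_mul_of_nonneg_left h2p (by positivity)
      _ = (p : ℝ) ^ (-(d / 2)) := by
          rw [← Real.rpow_add hp0]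
          congr 1
          ring
  have hq1 : 1 ≤ (p : ℝ) ^ (-d) * n := by
    have h1 : (p : ℝ) ^ (-d) * (p : ℝ) ^ ε ≤ (p : ℝ) ^ (-d) * n := by
      rw [hn]
      exact mul_le_mul_of_nonneg_left hB (by positivity)
    refine le_trans ?_ h1
    rw [← Real.rpow_add hp0]
    exact Real.one_le_rpow hp1 (by linarith)
  have hpd0 : 0 < (p : ℝ) ^ (-d) := by positivity
  constructor
  · -- affine maps
    by_contra hcon
    push Not at hcon
    obtain ⟨T, hT⟩ : ∃ T, T = bad1 χ A B (d / 2) := ⟨_, rfl⟩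
    rw [← hT] at hcon
    have hTne : 0 < α * T.card := by
      rw [hα]
      exact lt_of_le_of_lt (by positivity) hcon
    have hM : (p : ℝ) ^ (3 / 2 + ε₁) ≤ A.card * T.card :=
      (Real.rpow_le_rpow_of_exponent_le hp1 (by linarith)).trans hcon.le
    have hT2 : ∀ g ∈ T, g.2 ≠ 0 := by
      intro g hg
      rw [hT] at hg
      exact (mem_filter.1 hg).2.1
    have hG := m1 χ hχ r hr1 B hBr (fun _ => 1) (fun _ => by simp)
    have h1 := gen r hr1 ε₁ (CC r) n he2 (CC_nonneg r) hn0.le A T hT2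
      (fun z => ‖∑ b ∈ B, 1 * χ (z + b)‖) (fun z => norm_nonneg _) (by rw [hn]; exact hG) hM h3C
    have h2 : ∑ g ∈ T, (p : ℝ) ^ (-(d / 2)) * (α * n) ≤
        ∑ g ∈ T, ∑ a ∈ A, ‖∑ b ∈ B, 1 * χ ((a + g.1) / g.2 + b)‖ := by
      refine sum_le_sum fun g hg => ?_
      have h3 := aff_le χ A B g.1 g.2 (hT2 g hg)
      rw [hT] at hg
      have h4 := (mem_filter.1 hg).2.2
      rw [hα, hn]
      exact h4.le.trans h3
    have h5 := h2.trans h1
    rw [sum_const, nsmul_eq_mul, ← hd, ← hα] at h5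
    have h6 : (p : ℝ) ^ (-(d / 2)) * (n * (α * T.card)) ≤ (p : ℝ) ^ (-d) * (n * (α * T.card)) := by
      calc _ = (T.card : ℝ) * ((p : ℝ) ^ (-(d / 2)) * (α * n)) := by ring
        _ ≤ _ := h5
    have h7 := le_of_mul_le_mul_right h6 (by positivity)
    linarith
  · -- Möbius maps
    obtain ⟨T, hT⟩ : ∃ T, T = bad2 χ A B (d / 2) := ⟨_, rfl⟩
    rw [← hT]
    have hT2 : ∀ v, ∀ g ∈ T v, g.2 ≠ 0 := by
      intro v g hg
      rw [hT] at hg
      exact (mem_filter.1 hg).2.1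
    have hlow : ∀ v, (p : ℝ) ^ (-(d / 2)) * (n * (α * (T v).card)) ≤
        (∑ g ∈ T v, ∑ a ∈ A, H χ B v ((a + g.1) / g.2)) + α * (T v).card := by
      intro v
      have h2 : ∑ g ∈ T v, (p : ℝ) ^ (-(d / 2)) * (α * n) ≤
          ∑ g ∈ T v, ((∑ a ∈ A, H χ B v ((a + g.1) / g.2)) + α) := by
        refine sum_le_sum fun g hg => ?_
        have h3 := mob_le χ A B g.1 g.2 v (hT2 v g hg)
        rw [hT] at hg
        have h4 := (mem_filter.1 hg).2.2
        rw [hα, hn]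
        exact h4.le.trans h3
      rw [sum_add_distrib, sum_const, sum_const, nsmul_eq_mul, nsmul_eq_mul] at h2
      calc _ = ((T v).card : ℝ) * ((p : ℝ) ^ (-(d / 2)) * (α * n)) := by ring
        _ ≤ _ := h2
        _ = _ := by ring
    -- a general contradiction
    have hcontra : ∀ M : ℝ, 0 < M → ∀ X : ℝ, X ≤ (p : ℝ) ^ (-d) * (n * M) →
        (p : ℝ) ^ (-(d / 2)) * (n * M) ≤ X + M → False := by
      intro M hM X h1 h2
      have h4 : (p : ℝ) ^ (-(d / 2)) * n * M ≤ ((p : ℝ) ^ (-d) * n + 1) * M := by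
        calc _ = (p : ℝ) ^ (-(d / 2)) * (n * M) := by ring
          _ ≤ X + M := h2
          _ ≤ (p : ℝ) ^ (-d) * (n * M) + M := by linarith
          _ = _ := by ring
      have h5 := le_of_mul_le_mul_right h4 hM
      have h6 : (p : ℝ) ^ (-d) * 3 * n ≤ (p : ℝ) ^ (-(d / 2)) * n :=
        mul_le_mul_of_nonneg_right hq hn0.le
      linarith
    have hHsum : ∀ v, ∑ z, H χ B v z ^ (2 * r) =
        ∑ x, ‖∑ b ∈ B, χ (x + b) * (starRingEnd ℂ) (χ (v + b))‖ ^ (2 * r) :=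
      fun v => H_shift χ B r v
    have hMv : ∀ v, (A.card : ℝ) * (T v).card ≤ (p : ℝ) ^ (3 / 2 + ε₁) := by
      intro v
      by_contra hcon
      push Not at hcon
      have hG := m1 χ hχ r hr1 B hBr (fun b => (starRingEnd ℂ) (χ (v + b))) (fun b => by
        rw [RCLike.norm_conj]
        exact χ.norm_le_one _)
      have hG2 : ∑ z, H χ B v z ^ (2 * r) ≤ CC r * n ^ (2 * r) * Real.sqrt p := by
        rw [hHsum v, hn]
        refine le_trans (le_of_eq ?_) hG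
        refine sum_congr rfl fun x _ => ?_
        congr 2
        exact sum_congr rfl fun b _ => mul_comm _ _
      have h1 := gen r hr1 ε₁ (CC r) n he2 (CC_nonneg r) hn0.le A (T v) (hT2 v)
        (H χ B v) (fun z => norm_nonneg _) hG2 hcon.le h3C
      rw [← hd, ← hα] at h1
      have hpos : 0 < α * (T v).card := by
        rw [hα]
        exact lt_trans (by positivity) hcon
      exact hcontra _ hpos _ h1 (hlow v)
    by_contra hcon
    push Not at hcon
    have hG3 : ∑ v, ∑ z, H χ B v z ^ (2 * r) ≤ CC r * n ^ (2 * r) * p := by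
      rw [sum_congr rfl fun v _ => hHsum v, sum_comm, hn]
      exact m2 χ hχ r hr1 B hBr
    have h1 := gen2 r hr1 ε₁ (CC r) n he2 (CC_nonneg r) hn0.le A T hT2 (H χ B)
      (fun v z => norm_nonneg _) hG3 hMv
      ((Real.rpow_le_rpow_of_exponent_le hp1 (by linarith)).trans hcon.le) h3C
    rw [← hd, ← hα] at h1
    have hpos : 0 < ∑ v, α * (T v).card := by
      rw [hα]
      exact lt_trans (by positivity) hcon
    refine hcontra _ hpos _ h1 ?_
    have h2 := sum_le_sum fun (v : ZMod p) (_ : v ∈ (univ : Finset (ZMod p))) => hlow v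
    rw [sum_add_distrib] at h2
    refine le_trans (le_of_eq ?_) h2
    simp only [← mul_sum]

/-- both sets large -/
theorem mobius' (ε : ℝ) (hε : 0 < ε) : ∃ δ : ℝ, 0 < δ ∧ ∃ p₀ : ℕ,
    ∀ (p : ℕ) [Fact p.Prime], p₀ ≤ p → ∀ χ : DirichletCharacter ℂ p, χ ≠ 1 →
    ∀ A B : Finset (ZMod p), (p : ℝ) ^ ε ≤ A.card → (p : ℝ) ^ ε ≤ B.card →
      (max A.card B.card : ℝ) * (bad1 χ A B δ).card ≤ (p : ℝ) ^ (3 / 2 + ε) ∧
      ∑ v, (A.card : ℝ) * (bad2 χ A B δ v).card ≤ (p : ℝ) ^ (2 + ε) := by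
  obtain ⟨δ, hδ, p₀, h⟩ := mobius ε hε
  refine ⟨δ, hδ, p₀, fun p _ hp χ hχ A B hA hB => ?_⟩
  obtain ⟨h1, h2⟩ := h p hp χ hχ A B hB
  refine ⟨?_, h2⟩
  rcases le_total (B.card : ℝ) (A.card : ℝ) with hle | hle
  · rw [max_eq_left hle]
    exact h1
  · rw [max_eq_right hle]
    obtain ⟨h3, -⟩ := h p hp χ hχ B A hA
    refine le_trans ?_ h3
    refine mul_le_mul_of_nonneg_left ?_ (by positivity)
    have h4 : (bad1 χ A B δ).card ≤ (bad1 χ B A δ).card := by
      refine card_le_card_of_injOn (fun g => (g.1 / g.2, g.2⁻¹)) ?_ ?_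
      · intro g hg
        have hg' := (mem_filter.1 hg).2
        refine mem_filter.2 ⟨mem_univ _, inv_ne_zero hg'.1, ?_⟩
        rw [← swap_norm χ A B g.1 g.2 hg'.1]
        have e : (B.card : ℝ) * A.card = A.card * B.card := mul_comm _ _
        rw [e]
        exact hg'.2
      · intro g hg g' hg' hgg
        have hg1 := (mem_filter.1 hg).2.1
        have hg2 := (mem_filter.1 hg').2.1
        simp only [Prod.mk.injEq] at hgg
        have e2 : g.2 = g'.2 := inv_injective hgg.2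
        have e1 := hgg.1
        rw [e2, div_left_inj' hg2] at e1
        exact Prod.ext e1 e2
    exact_mod_cast h4

end Pool.Agent.Y881.PG
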