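import Mathlib

/-! # Affine maps taking many values in a set -/

set_option autoImplicit false

namespace Pool.Agent.Y881.PG

open Finset

variable {p : ℕ} [Fact p.Prime]

set_option linter.unusedSectionVars false

open Classical in
/-- the indicator function -/
noncomputable def ind (A : Finset (ZMod p)) (x : ZMod p) : ℝ := if x ∈ A then 1 else 0

lemma ind_nonneg (A : Finset (ZMod p)) (x : ZMod p) : 0 ≤ ind A x := by
  unfold ind
  split_ifs <;> norm_num

lemma ind_mul_self (A : Finset (ZMod p)) (x : ZMod p) : ind A x * ind A x = ind A x := by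
  unfold ind
  split_ifs <;> norm_num

lemma sum_ind_mul (A : Finset (ZMod p)) (f : ZMod p → ℝ) :
    ∑ x, ind A x * f x = ∑ x ∈ A, f x := by
  classical
  unfold ind
  simp only [ite_mul, one_mul, zero_mul]
  rw [← Finset.sum_filter]
  congr 1
  ext x
  simp

lemma sum_ind (A : Finset (ZMod p)) : ∑ x, ind A x = A.card := by
  have h := sum_ind_mul A (fun _ => 1)
  simp only [mul_one] at h
  rw [h]
  simp

lemma sum_sub (c : ZMod p) (f : ZMod p → ℝ) : ∑ s, f (c - s) = ∑ x, f x :=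
  Equiv.sum_comp (Equiv.subLeft c) f

lemma sum_add_mul (x d : ZMod p) (hd : d ≠ 0) (f : ZMod p → ℝ) : ∑ t, f (x + t * d) = ∑ y, f y := by
  have h1 := Equiv.sum_comp (Equiv.mulRight₀ d hd) (fun y => f (x + y))
  have h2 := Equiv.sum_comp (Equiv.addLeft x) f
  simp only [Equiv.coe_addLeft] at h2
  calc ∑ t, f (x + t * d) = ∑ t, f (x + (Equiv.mulRight₀ d hd) t) := rfl
    _ = ∑ y, f y := by rw [h1, h2]

/-- pair correlations over all affine maps -/
lemma corr (A : Finset (ZMod p)) (u v : ZMod p) :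
    ∑ t : ZMod p, ∑ s : ZMod p, ind A (t * u - s) * ind A (t * v - s) =
      if u = v then (p : ℝ) * A.card else (A.card : ℝ) ^ 2 := by
  split_ifs with h
  · subst h
    have h1 : ∀ t : ZMod p, ∑ s : ZMod p, ind A (t * u - s) * ind A (t * u - s) = A.card := by
      intro t
      rw [sum_congr rfl fun s _ => ind_mul_self A (t * u - s), sum_sub (t * u) (ind A), sum_ind]
    rw [sum_congr rfl fun t _ => h1 t, sum_const, card_univ, ZMod.card, nsmul_eq_mul]
  · have hd : v - u ≠ 0 := sub_ne_zero.2 (Ne.symm h)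
    have h1 : ∀ t : ZMod p, ∑ s : ZMod p, ind A (t * u - s) * ind A (t * v - s) =
        ∑ x : ZMod p, ind A x * ind A (x + t * (v - u)) := by
      intro t
      rw [← sum_sub (t * u) (fun x => ind A x * ind A (x + t * (v - u)))]
      refine sum_congr rfl fun s _ => ?_
      congr 2
      ring
    rw [sum_congr rfl fun t _ => h1 t, sum_comm]
    have h2 : ∀ x : ZMod p, ∑ t : ZMod p, ind A x * ind A (x + t * (v - u)) =
        ind A x * A.card := by
      intro x
      rw [← mul_sum, sum_add_mul x (v - u) hd (ind A), sum_ind]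
    rw [sum_congr rfl fun x _ => h2 x, ← sum_mul, sum_ind, sq]

/-- the variance over all affine maps -/
theorem variance (A : Finset (ZMod p)) (f : ZMod p → ℝ) :
    ∑ t : ZMod p, ∑ s : ZMod p,
      (∑ u, ind A (t * u - s) * f u - A.card * (∑ u, f u) / p) ^ 2 ≤
        p * A.card * ∑ u, f u ^ 2 := by
  have hp0 : (0 : ℝ) < p := by exact_mod_cast (Fact.out : p.Prime).pos
  obtain ⟨F, hF⟩ : ∃ F : ℝ, F = ∑ u, f u := ⟨_, rfl⟩
  obtain ⟨c, hc⟩ : ∃ c : ℝ, c = A.card * F / p := ⟨_, rfl⟩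
  rw [← hF, ← hc]
  have h1 : ∑ t : ZMod p, ∑ s : ZMod p, (∑ u, ind A (t * u - s) * f u) = p * A.card * F := by
    have h2 : ∀ t : ZMod p, ∑ s : ZMod p, (∑ u, ind A (t * u - s) * f u) = A.card * F := by
      intro t
      rw [sum_comm]
      have h3 : ∀ u : ZMod p, ∑ s : ZMod p, ind A (t * u - s) * f u = A.card * f u := by
        intro u
        rw [← sum_mul, sum_sub (t * u) (ind A), sum_ind]
      rw [sum_congr rfl fun u _ => h3 u, ← mul_sum, hF]
    rw [sum_congr rfl fun t _ => h2 t, sum_const, card_univ, ZMod.card, nsmul_eq_mul]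
    ring
  have h4 : ∑ t : ZMod p, ∑ s : ZMod p, (∑ u, ind A (t * u - s) * f u) ^ 2 =
      (A.card : ℝ) ^ 2 * F ^ 2 + (p * A.card - (A.card : ℝ) ^ 2) * ∑ u, f u ^ 2 := by
    have h5 : ∀ t s : ZMod p, (∑ u, ind A (t * u - s) * f u) ^ 2 =
        ∑ u, ∑ v, (ind A (t * u - s) * ind A (t * v - s)) * (f u * f v) := by
      intro t s
      rw [sq, sum_mul_sum]
      refine sum_congr rfl fun u _ => sum_congr rfl fun v _ => ?_
      ring
    have h6 : ∑ t : ZMod p, ∑ s : ZMod p, (∑ u, ind A (t * u - s) * f u) ^ 2 =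
        ∑ u, ∑ v, (∑ t : ZMod p, ∑ s : ZMod p, ind A (t * u - s) * ind A (t * v - s)) *
          (f u * f v) := by
      calc _ = ∑ t : ZMod p, ∑ s : ZMod p, ∑ u, ∑ v,
            (ind A (t * u - s) * ind A (t * v - s)) * (f u * f v) :=
            sum_congr rfl fun t _ => sum_congr rfl fun s _ => h5 t s
        _ = ∑ t : ZMod p, ∑ u, ∑ v, ∑ s : ZMod p,
            (ind A (t * u - s) * ind A (t * v - s)) * (f u * f v) := by
            refine sum_congr rfl fun t _ => ?_
            rw [sum_comm]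
            refine sum_congr rfl fun u _ => ?_
            rw [sum_comm]
        _ = ∑ u, ∑ v, ∑ t : ZMod p, ∑ s : ZMod p,
            (ind A (t * u - s) * ind A (t * v - s)) * (f u * f v) := by
            rw [sum_comm]
            refine sum_congr rfl fun u _ => ?_
            rw [sum_comm]
        _ = _ := by
            refine sum_congr rfl fun u _ => sum_congr rfl fun v _ => ?_
            rw [sum_mul]
            refine sum_congr rfl fun t _ => ?_
            rw [sum_mul]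
    rw [h6]
    have h7 : ∀ u v : ZMod p,
        (∑ t : ZMod p, ∑ s : ZMod p, ind A (t * u - s) * ind A (t * v - s)) * (f u * f v) =
        (A.card : ℝ) ^ 2 * (f u * f v) +
          (if u = v then (p * A.card - (A.card : ℝ) ^ 2) * f u ^ 2 else 0) := by
      intro u v
      rw [corr]
      split_ifs with h
      · subst h
        ring
      · ring
    rw [sum_congr rfl fun u _ => sum_congr rfl fun v _ => h7 u v]
    simp only [sum_add_distrib, sum_ite_eq, mem_univ, if_true]
    rw [← mul_sum]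
    congr 1
    have h8 : ∀ u : ZMod p, ∑ v, (A.card : ℝ) ^ 2 * (f u * f v) = (A.card : ℝ) ^ 2 * F * f u := by
      intro u
      rw [← mul_sum, ← mul_sum, hF]
      ring
    rw [sum_congr rfl fun u _ => h8 u, ← mul_sum, ← hF]
    ring
  have h9 : ∑ t : ZMod p, ∑ s : ZMod p, (∑ u, ind A (t * u - s) * f u - c) ^ 2 =
      (∑ t : ZMod p, ∑ s : ZMod p, (∑ u, ind A (t * u - s) * f u) ^ 2) -
        2 * c * (∑ t : ZMod p, ∑ s : ZMod p, (∑ u, ind A (t * u - s) * f u)) +
        (p : ℝ) * p * c ^ 2 := by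
    have h10 : ∀ t s : ZMod p, (∑ u, ind A (t * u - s) * f u - c) ^ 2 =
        (∑ u, ind A (t * u - s) * f u) ^ 2 - 2 * c * (∑ u, ind A (t * u - s) * f u) + c ^ 2 := by
      intro t s
      ring
    rw [sum_congr rfl fun t _ => sum_congr rfl fun s _ => h10 t s]
    simp only [sum_add_distrib, sum_sub_distrib, ← mul_sum, sum_const, card_univ, ZMod.card,
      nsmul_eq_mul]
    ring
  rw [h9, h4, h1, hc]
  have hS : 0 ≤ ∑ u, f u ^ 2 := sum_nonneg fun u _ => sq_nonneg _
  have e : (A.card : ℝ) ^ 2 * F ^ 2 + (p * A.card - (A.card : ℝ) ^ 2) * ∑ u, f u ^ 2 -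
      2 * (A.card * F / p) * (p * A.card * F) + p * p * (A.card * F / p) ^ 2 =
      p * A.card * (∑ u, f u ^ 2) - (A.card : ℝ) ^ 2 * ∑ u, f u ^ 2 := by
    field_simp
    ring
  rw [e]
  have : 0 ≤ (A.card : ℝ) ^ 2 * ∑ u, f u ^ 2 := by positivity
  linarith

/-- the number of `g ∈ T` which take the value `u` to `A` -/
noncomputable def nu (A : Finset (ZMod p)) (T : Finset (ZMod p × ZMod p)) (u : ZMod p) : ℝ :=
  ∑ g ∈ T, ind A (g.2 * u - g.1)

lemma nu_nonneg (A : Finset (ZMod p)) (T : Finset (ZMod p × ZMod p)) (u : ZMod p) :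
    0 ≤ nu A T u := sum_nonneg fun _ _ => ind_nonneg _ _

lemma sum_one (A : Finset (ZMod p)) (s t : ZMod p) (ht : t ≠ 0) (G : ZMod p → ℝ) :
    ∑ u, ind A (t * u - s) * G u = ∑ a ∈ A, G ((a + s) / t) := by
  rw [← sum_ind_mul A (fun a => G ((a + s) / t))]
  have hb : Function.Bijective (fun x : ZMod p => (x + s) / t) := by
    constructor
    · intro x y hxy
      have h1 : (x + s) / t = (y + s) / t := hxy
      rw [div_left_inj' ht] at h1
      exact add_right_cancel h1
    · intro y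
      refine ⟨t * y - s, ?_⟩
      show (t * y - s + s) / t = y
      field_simp
      ring
  rw [← hb.sum_comp (fun u => ind A (t * u - s) * G u)]
  refine sum_congr rfl fun x _ => ?_
  congr 2
  field_simp
  ring

lemma sum_nu_mul (A : Finset (ZMod p)) (T : Finset (ZMod p × ZMod p)) (hT : ∀ g ∈ T, g.2 ≠ 0)
    (G : ZMod p → ℝ) : ∑ u, nu A T u * G u = ∑ g ∈ T, ∑ a ∈ A, G ((a + g.1) / g.2) := by
  unfold nu
  simp only [sum_mul]
  rw [sum_comm]
  exact sum_congr rfl fun g hg => sum_one A g.1 g.2 (hT g hg) G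

lemma sum_nu (A : Finset (ZMod p)) (T : Finset (ZMod p × ZMod p)) (hT : ∀ g ∈ T, g.2 ≠ 0) :
    ∑ u, nu A T u = A.card * T.card := by
  have h := sum_nu_mul A T hT (fun _ => 1)
  simp only [mul_one, sum_const, nsmul_eq_mul] at h
  rw [h]
  ring

/-- the second moment of the number of representations -/
theorem second_moment (A : Finset (ZMod p)) (T : Finset (ZMod p × ZMod p))
    (hT : ∀ g ∈ T, g.2 ≠ 0) :
    ∑ u, nu A T u ^ 2 ≤ 2 * ((A.card : ℝ) * T.card) ^ 2 / p + p * (A.card * T.card) := by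
  have hp0 : (0 : ℝ) < p := by exact_mod_cast (Fact.out : p.Prime).pos
  obtain ⟨Q, hQ⟩ : ∃ Q : ℝ, Q = ∑ u, nu A T u ^ 2 := ⟨_, rfl⟩
  obtain ⟨M, hM⟩ : ∃ M : ℝ, M = A.card * T.card := ⟨_, rfl⟩
  have hM0 : 0 ≤ M := by rw [hM]; positivity
  have hQ0 : 0 ≤ Q := by rw [hQ]; exact sum_nonneg fun u _ => sq_nonneg _
  have hsum := sum_nu A T hT
  have h1 : Q = ∑ g ∈ T, ∑ u, ind A (g.2 * u - g.1) * nu A T u := by
    rw [hQ, sum_comm]
    refine sum_congr rfl fun u _ => ?_
    rw [sq, ← sum_mul]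
    rfl
  have h2 := variance A (nu A T)
  rw [hsum, ← hM, ← hQ] at h2
  obtain ⟨P, hP⟩ : ∃ P : ZMod p × ZMod p → ℝ,
      P = fun g => ∑ u, ind A (g.2 * u - g.1) * nu A T u - A.card * M / p := ⟨_, rfl⟩
  have h3 : ∑ g ∈ T, P g ^ 2 ≤ p * A.card * Q := by
    refine le_trans ?_ h2
    calc ∑ g ∈ T, P g ^ 2 ≤ ∑ g : ZMod p × ZMod p, P g ^ 2 :=
          sum_le_sum_of_subset_of_nonneg (subset_univ _) fun g _ _ => sq_nonneg _
      _ = ∑ s : ZMod p, ∑ t : ZMod p, P (s, t) ^ 2 := by
          rw [← univ_product_univ, sum_product]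
      _ = _ := by
          rw [sum_comm, hP]
  have h4 : Q - M ^ 2 / p = ∑ g ∈ T, P g := by
    rw [hP, sum_sub_distrib, ← h1, sum_const, nsmul_eq_mul, hM]
    ring
  have h5 : (∑ g ∈ T, P g) ^ 2 ≤ T.card * ∑ g ∈ T, P g ^ 2 := sq_sum_le_card_mul_sum_sq
  have h6 : (Q - M ^ 2 / p) ^ 2 ≤ p * M * Q := by
    rw [h4]
    refine h5.trans ?_
    calc (T.card : ℝ) * ∑ g ∈ T, P g ^ 2 ≤ T.card * (p * A.card * Q) :=
          mul_le_mul_of_nonneg_left h3 (by positivity)
      _ = p * M * Q := by rw [hM]; ring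
  rw [← hQ, ← hM]
  rcases hQ0.eq_or_lt with h0 | hpos
  · rw [← h0]
    positivity
  · obtain ⟨a, ha⟩ : ∃ a : ℝ, a = M ^ 2 / p := ⟨_, rfl⟩
    have e : 2 * M ^ 2 / p = 2 * a := by rw [ha]; ring
    rw [e]
    rw [← ha] at h6
    by_contra hcon
    push Not at hcon
    nlinarith [sq_nonneg a, mul_pos hpos hpos]

end Pool.Agent.Y881.PG
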