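import Pool.Agent.Y881.PG.Mom2
import Pool.Agent.Y881.PG.Inc
import Pool.Agent.H435R3.Paley.All

/-! # Double character sums over a set and a Möbius image of another set -/

set_option autoImplicit false

namespace Pool.Agent.Y881.PG

open Finset Pool.Agent.H471R4.BW Pool.Agent.H435R3.Paley

lemma save {ι : Type} [Fintype ι] (r : ℕ) (hr : 1 ≤ r) (f G : ι → ℝ) (hf : ∀ x, 0 ≤ f x)
    (hG : ∀ x, 0 ≤ G x) (C Q η n : ℝ) (hC : 0 ≤ C) (hn : 0 ≤ n)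
    (h1 : ∑ x, G x ^ (2 * r) ≤ C * n ^ (2 * r) * Q)
    (h2 : Q * ∑ x, f x ^ 2 ≤ η * (∑ x, f x) ^ 2) :
    (∑ x, f x * G x) ^ (2 * r) ≤ C * η * (n * ∑ x, f x) ^ (2 * r) := by
  have h3 := hol ι r hr f G hf hG
  have hS : 0 ≤ ∑ x, f x := sum_nonneg fun x _ => hf x
  have hS2 : 0 ≤ ∑ x, f x ^ 2 := sum_nonneg fun x _ => sq_nonneg _
  have e : 2 * r = 2 * r - 2 + 2 := by omega
  calc _ ≤ (∑ x, f x) ^ (2 * r - 2) * (∑ x, f x ^ 2) * ∑ x, G x ^ (2 * r) := h3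
    _ ≤ (∑ x, f x) ^ (2 * r - 2) * (∑ x, f x ^ 2) * (C * n ^ (2 * r) * Q) :=
        mul_le_mul_of_nonneg_left h1 (by positivity)
    _ = (C * n ^ (2 * r) * (∑ x, f x) ^ (2 * r - 2)) * (Q * ∑ x, f x ^ 2) := by ring
    _ ≤ (C * n ^ (2 * r) * (∑ x, f x) ^ (2 * r - 2)) * (η * (∑ x, f x) ^ 2) :=
        mul_le_mul_of_nonneg_left h2 (by positivity)
    _ = C * η * (n * ∑ x, f x) ^ (2 * r) := by
        rw [mul_pow]
        conv_rhs => rw [e, pow_add (∑ x, f x)]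
        rw [← e]
        ring

/-- the constant in the moments -/
noncomputable def CC (r : ℕ) : ℝ := (r : ℝ) ^ (2 * r) + 4 * (r : ℝ) ^ 2

lemma CC_nonneg (r : ℕ) : 0 ≤ CC r := by unfold CC; positivity

variable {p : ℕ} [Fact p.Prime]

lemma m1 (χ : DirichletCharacter ℂ p) (hχ : χ ≠ 1) (r : ℕ) (hr : 1 ≤ r) (B : Finset (ZMod p))
    (hB : (p : ℝ) ≤ (B.card : ℝ) ^ r) (c : ZMod p → ℂ) (hc : ∀ b, ‖c b‖ ≤ 1) :
    ∑ x : ZMod p, ‖∑ b ∈ B, c b * χ (x + b)‖ ^ (2 * r) ≤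
      CC r * (B.card : ℝ) ^ (2 * r) * Real.sqrt p := by
  have hp1 : (1 : ℝ) ≤ p := by exact_mod_cast (Fact.out : p.Prime).one_le
  have hr1 : (1 : ℝ) ≤ r := by exact_mod_cast hr
  have h := momWF χ r (2 * r) hr (by positivity) B (good_all p χ hχ r hr) c hc
  have hss : Real.sqrt p * Real.sqrt p = p := Real.mul_self_sqrt (by linarith)
  have hs0 : 0 ≤ Real.sqrt p := Real.sqrt_nonneg _
  have hs1 : Real.sqrt p ≤ p := by
    rw [Real.sqrt_le_left (by linarith)]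
    nlinarith
  refine h.trans ?_
  have h1 : (B.card : ℝ) ^ r * p ≤ (B.card : ℝ) ^ (2 * r) * Real.sqrt p := by
    calc (B.card : ℝ) ^ r * p = (B.card : ℝ) ^ r * (Real.sqrt p * Real.sqrt p) := by rw [hss]
      _ ≤ (B.card : ℝ) ^ r * ((B.card : ℝ) ^ r * Real.sqrt p) := by
          refine mul_le_mul_of_nonneg_left ?_ (by positivity)
          exact mul_le_mul_of_nonneg_right (hs1.trans hB) hs0
      _ = (B.card : ℝ) ^ (2 * r) * Real.sqrt p := by ring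
  have h2 : (2 * (r : ℝ)) ≤ 4 * (r : ℝ) ^ 2 := by nlinarith
  have h3 : 0 ≤ (B.card : ℝ) ^ (2 * r) * Real.sqrt p := by positivity
  calc _ = (r : ℝ) ^ (2 * r) * ((B.card : ℝ) ^ r * p) +
        2 * r * ((B.card : ℝ) ^ (2 * r) * Real.sqrt p) := by ring
    _ ≤ (r : ℝ) ^ (2 * r) * ((B.card : ℝ) ^ (2 * r) * Real.sqrt p) +
        4 * (r : ℝ) ^ 2 * ((B.card : ℝ) ^ (2 * r) * Real.sqrt p) :=
        add_le_add (mul_le_mul_of_nonneg_left h1 (by positivity))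
          (mul_le_mul_of_nonneg_right h2 h3)
    _ = _ := by unfold CC; ring

lemma m2 (χ : DirichletCharacter ℂ p) (hχ : χ ≠ 1) (r : ℕ) (hr : 1 ≤ r) (B : Finset (ZMod p))
    (hB : (p : ℝ) ≤ (B.card : ℝ) ^ r) :
    ∑ x : ZMod p, ∑ y : ZMod p,
        ‖∑ b ∈ B, χ (x + b) * (starRingEnd ℂ) (χ (y + b))‖ ^ (2 * r) ≤
      CC r * (B.card : ℝ) ^ (2 * r) * p := by
  have hp1 : (1 : ℝ) ≤ p := by exact_mod_cast (Fact.out : p.Prime).one_le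
  have h := mom2F χ r (2 * r) hr (by positivity) B (good_all p χ hχ r hr)
  have hss : Real.sqrt p ^ 2 = p := Real.sq_sqrt (by linarith)
  refine h.trans ?_
  have h1 : (B.card : ℝ) ^ r * (p : ℝ) ^ 2 ≤ (B.card : ℝ) ^ (2 * r) * p := by
    calc (B.card : ℝ) ^ r * (p : ℝ) ^ 2 = (B.card : ℝ) ^ r * p * p := by ring
      _ ≤ (B.card : ℝ) ^ r * (B.card : ℝ) ^ r * p := by
          refine mul_le_mul_of_nonneg_right ?_ (by linarith)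
          exact mul_le_mul_of_nonneg_left hB (by positivity)
      _ = (B.card : ℝ) ^ (2 * r) * p := by ring
  calc _ = (r : ℝ) ^ (2 * r) * ((B.card : ℝ) ^ r * (p : ℝ) ^ 2) +
        4 * (r : ℝ) ^ 2 * ((B.card : ℝ) ^ (2 * r) * p) := by rw [mul_pow, hss]; ring
    _ ≤ (r : ℝ) ^ (2 * r) * ((B.card : ℝ) ^ (2 * r) * p) +
        4 * (r : ℝ) ^ 2 * ((B.card : ℝ) ^ (2 * r) * p) :=
        add_le_add (mul_le_mul_of_nonneg_left h1 (by positivity)) le_rfl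
    _ = _ := by unfold CC; ring

lemma root_step (r : ℕ) (hr : 1 ≤ r) (ε₁ C X Y : ℝ) (hX : 0 ≤ X) (hY : 0 ≤ Y)
    (hp1 : (1 : ℝ) ≤ p) (h3C : 3 * C ≤ (p : ℝ) ^ (ε₁ / 2))
    (h : X ^ (2 * r) ≤ C * (3 * (p : ℝ) ^ (-ε₁)) * Y ^ (2 * r)) :
    X ≤ (p : ℝ) ^ (-(ε₁ / (4 * r))) * Y := by
  have hp0 : (0 : ℝ) < p := by linarith
  have hr0 : (0 : ℝ) < r := by exact_mod_cast hr
  have e1 : ((p : ℝ) ^ (-(ε₁ / (4 * r)))) ^ (2 * r) = (p : ℝ) ^ (-(ε₁ / 2)) := by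
    rw [← Real.rpow_natCast, ← Real.rpow_mul hp0.le]
    congr 1
    push_cast
    field_simp
    ring
  have h2 : X ^ (2 * r) ≤ ((p : ℝ) ^ (-(ε₁ / (4 * r))) * Y) ^ (2 * r) := by
    rw [mul_pow, e1]
    refine h.trans (mul_le_mul_of_nonneg_right ?_ (by positivity))
    calc C * (3 * (p : ℝ) ^ (-ε₁)) = 3 * C * (p : ℝ) ^ (-ε₁) := by ring
      _ ≤ (p : ℝ) ^ (ε₁ / 2) * (p : ℝ) ^ (-ε₁) := mul_le_mul_of_nonneg_right h3C (by positivity)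
      _ = (p : ℝ) ^ (-(ε₁ / 2)) := by
          rw [← Real.rpow_add hp0]
          congr 1
          ring
  exact (pow_le_pow_iff_left₀ hX (by positivity) (by omega : 2 * r ≠ 0)).1 h2

/-- one parameter -/
theorem gen (r : ℕ) (hr : 1 ≤ r) (ε₁ C n : ℝ) (h1 : ε₁ ≤ 1 / 2) (hC : 0 ≤ C) (hn : 0 ≤ n)
    (A : Finset (ZMod p)) (T : Finset (ZMod p × ZMod p)) (hT : ∀ g ∈ T, g.2 ≠ 0)
    (G : ZMod p → ℝ) (hG0 : ∀ z, 0 ≤ G z)
    (hG : ∑ z, G z ^ (2 * r) ≤ C * n ^ (2 * r) * Real.sqrt p)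
    (hM : (p : ℝ) ^ (3 / 2 + ε₁) ≤ A.card * T.card) (h3C : 3 * C ≤ (p : ℝ) ^ (ε₁ / 2)) :
    ∑ g ∈ T, ∑ a ∈ A, G ((a + g.1) / g.2) ≤
      (p : ℝ) ^ (-(ε₁ / (4 * r))) * (n * (A.card * T.card)) := by
  have hp1 : (1 : ℝ) ≤ p := by exact_mod_cast (Fact.out : p.Prime).one_le
  have hp0 : (0 : ℝ) < p := by linarith
  have hs0 : 0 ≤ Real.sqrt p := Real.sqrt_nonneg _
  obtain ⟨M, hMdef⟩ : ∃ M : ℝ, M = A.card * T.card := ⟨_, rfl⟩
  have hsm := second_moment A T hT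
  have hsum := sum_nu A T hT
  rw [← hMdef] at hM hsm hsum ⊢
  have hM0 : 0 ≤ M := by rw [hMdef]; positivity
  rw [← sum_nu_mul A T hT G]
  refine root_step r hr ε₁ C _ _ (sum_nonneg fun u _ => mul_nonneg (nu_nonneg _ _ _) (hG0 u))
    (by positivity) hp1 h3C ?_
  have h := save r hr (nu A T) G (nu_nonneg A T) hG0 C (Real.sqrt p) (3 * (p : ℝ) ^ (-ε₁)) n hC hn
    hG ?_
  · rwa [hsum] at h
  · rw [hsum]
    have e1 : Real.sqrt p / p ≤ (p : ℝ) ^ (-ε₁) := by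
      calc Real.sqrt p / p = (p : ℝ) ^ (1 / 2 - 1 : ℝ) := by
            rw [Real.rpow_sub hp0, Real.rpow_one, Real.sqrt_eq_rpow]
        _ ≤ (p : ℝ) ^ (-ε₁) := Real.rpow_le_rpow_of_exponent_le hp1 (by linarith)
    have e2 : Real.sqrt p * p = (p : ℝ) ^ (-ε₁) * (p : ℝ) ^ (3 / 2 + ε₁) := by
      rw [← Real.rpow_add hp0, Real.sqrt_eq_rpow]
      have : (p : ℝ) ^ (1 / 2 : ℝ) * p = (p : ℝ) ^ (1 / 2 : ℝ) * (p : ℝ) ^ (1 : ℝ) := by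
        rw [Real.rpow_one]
      rw [this, ← Real.rpow_add hp0]
      congr 1
      ring
    have h0 : 0 ≤ (p : ℝ) ^ (-ε₁) := by positivity
    calc Real.sqrt p * ∑ u, nu A T u ^ 2 ≤ Real.sqrt p * (2 * M ^ 2 / p + p * M) :=
          mul_le_mul_of_nonneg_left hsm hs0
      _ = 2 * M ^ 2 * (Real.sqrt p / p) + (Real.sqrt p * p) * M := by
          field_simp
      _ ≤ 2 * M ^ 2 * (p : ℝ) ^ (-ε₁) + ((p : ℝ) ^ (-ε₁) * (p : ℝ) ^ (3 / 2 + ε₁)) * M :=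
          add_le_add (mul_le_mul_of_nonneg_left e1 (by positivity)) (by rw [e2])
      _ ≤ 2 * M ^ 2 * (p : ℝ) ^ (-ε₁) + ((p : ℝ) ^ (-ε₁) * M) * M := by
          refine add_le_add le_rfl (mul_le_mul_of_nonneg_right ?_ hM0)
          exact mul_le_mul_of_nonneg_left hM h0
      _ = 3 * (p : ℝ) ^ (-ε₁) * M ^ 2 := by ring

/-- two parameters -/
theorem gen2 (r : ℕ) (hr : 1 ≤ r) (ε₁ C n : ℝ) (h1 : ε₁ ≤ 1 / 2) (hC : 0 ≤ C) (hn : 0 ≤ n)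
    (A : Finset (ZMod p)) (T : ZMod p → Finset (ZMod p × ZMod p)) (hT : ∀ v, ∀ g ∈ T v, g.2 ≠ 0)
    (G : ZMod p → ZMod p → ℝ) (hG0 : ∀ v z, 0 ≤ G v z)
    (hG : ∑ v, ∑ z, G v z ^ (2 * r) ≤ C * n ^ (2 * r) * p)
    (hMv : ∀ v, (A.card : ℝ) * (T v).card ≤ (p : ℝ) ^ (3 / 2 + ε₁))
    (hM : (p : ℝ) ^ (2 + ε₁) ≤ ∑ v, (A.card : ℝ) * (T v).card)
    (h3C : 3 * C ≤ (p : ℝ) ^ (ε₁ / 2)) :
    ∑ v, ∑ g ∈ T v, ∑ a ∈ A, G v ((a + g.1) / g.2) ≤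
      (p : ℝ) ^ (-(ε₁ / (4 * r))) * (n * ∑ v, (A.card : ℝ) * (T v).card) := by
  have hp1 : (1 : ℝ) ≤ p := by exact_mod_cast (Fact.out : p.Prime).one_le
  have hp0 : (0 : ℝ) < p := by linarith
  obtain ⟨M, hMdef⟩ : ∃ M : ℝ, M = ∑ v, (A.card : ℝ) * (T v).card := ⟨_, rfl⟩
  have hM0 : 0 ≤ M := by rw [hMdef]; positivity
  rw [← hMdef] at hM ⊢
  have e0 : ∑ v, ∑ g ∈ T v, ∑ a ∈ A, G v ((a + g.1) / g.2) =
      ∑ x : ZMod p × ZMod p, nu A (T x.1) x.2 * G x.1 x.2 := by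
    rw [← univ_product_univ, sum_product]
    exact sum_congr rfl fun v _ => (sum_nu_mul A (T v) (hT v) (G v)).symm
  rw [e0]
  have hsum : ∑ x : ZMod p × ZMod p, nu A (T x.1) x.2 = M := by
    rw [← univ_product_univ, sum_product, hMdef]
    exact sum_congr rfl fun v _ => sum_nu A (T v) (hT v)
  refine root_step r hr ε₁ C _ _
    (sum_nonneg fun u _ => mul_nonneg (nu_nonneg _ _ _) (hG0 _ _)) (by positivity) hp1 h3C ?_
  have h := save r hr (fun x : ZMod p × ZMod p => nu A (T x.1) x.2) (fun x => G x.1 x.2)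
    (fun x => nu_nonneg _ _ _) (fun x => hG0 _ _) C p (3 * (p : ℝ) ^ (-ε₁)) n hC hn ?_ ?_
  · rwa [hsum] at h
  · rw [← univ_product_univ, sum_product]
    exact hG
  · rw [hsum]
    have h2 : ∑ x : ZMod p × ZMod p, nu A (T x.1) x.2 ^ 2 ≤ 3 * p * M := by
      rw [← univ_product_univ, sum_product, hMdef, mul_sum]
      refine sum_le_sum fun v _ => (second_moment A (T v) (hT v)).trans ?_
      obtain ⟨m, hm⟩ : ∃ m : ℝ, m = (A.card : ℝ) * (T v).card := ⟨_, rfl⟩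
      have hm0 : 0 ≤ m := by rw [hm]; positivity
      have h3 := hMv v
      rw [← hm] at h3 ⊢
      have h4 : m ≤ (p : ℝ) ^ 2 := by
        refine h3.trans ?_
        calc (p : ℝ) ^ (3 / 2 + ε₁) ≤ (p : ℝ) ^ (2 : ℝ) :=
              Real.rpow_le_rpow_of_exponent_le hp1 (by linarith)
          _ = (p : ℝ) ^ 2 := by norm_cast
      have h5 : 2 * m ^ 2 / p ≤ 2 * p * m := by
        rw [div_le_iff₀ hp0]
        nlinarith [mul_le_mul_of_nonneg_left h4 hm0]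
      linarith
    have e2 : (p : ℝ) ^ 2 = (p : ℝ) ^ (-ε₁) * (p : ℝ) ^ (2 + ε₁) := by
      rw [← Real.rpow_add hp0]
      have : -ε₁ + (2 + ε₁) = (2 : ℝ) := by ring
      rw [this]
      norm_cast
    have h0 : 0 ≤ (p : ℝ) ^ (-ε₁) := by positivity
    calc (p : ℝ) * ∑ x : ZMod p × ZMod p, nu A (T x.1) x.2 ^ 2 ≤ p * (3 * p * M) :=
          mul_le_mul_of_nonneg_left h2 hp0.le
      _ = 3 * (p : ℝ) ^ 2 * M := by ring
      _ = 3 * ((p : ℝ) ^ (-ε₁) * (p : ℝ) ^ (2 + ε₁)) * M := by rw [← e2]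
      _ ≤ 3 * ((p : ℝ) ^ (-ε₁) * M) * M := by
          refine mul_le_mul_of_nonneg_right ?_ hM0
          refine mul_le_mul_of_nonneg_left ?_ (by norm_num)
          exact mul_le_mul_of_nonneg_left hM h0
      _ = 3 * (p : ℝ) ^ (-ε₁) * M ^ 2 := by ring

end Pool.Agent.Y881.PG
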