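import Pool.Agent.H435R3.Paley.Mom

/-! # Moments of weighted sums and of two parameter sums over shifts -/

set_option autoImplicit false

namespace Pool.Agent.Y881.PG

open Finset Pool.Agent.H471R4.BW Pool.Agent.H435R3.Paley

variable {N : ℕ} [NeZero N] (χ : DirichletCharacter ℂ N)

/-- the complete sum of a term -/
noncomputable def ts (r n : ℕ) (w : Fin n → ZMod N) (u : (Fin r → Fin n) × (Fin r → Fin n)) : ℂ :=
  ∑ x : ZMod N, term χ r n w u.1 u.2 x

open Classical in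
theorem tuples (r n k : ℕ) (K : ℝ) (hr : 1 ≤ r) (hK : 0 ≤ K) (w : Fin n → ZMod N)
    (hw : Function.Injective w) (hC : Complete N χ r N K) :
    ∑ u : (Fin r → Fin n) × (Fin r → Fin n), ‖ts χ r n w u‖ ^ k ≤
      (r : ℝ) ^ (2 * r) * (n : ℝ) ^ r * (N : ℝ) ^ k +
        (n : ℝ) ^ (2 * r) * (K * Real.sqrt N) ^ k := by
  rw [← Finset.sum_filter_add_sum_filter_not Finset.univ
    (fun u : (Fin r → Fin n) × (Fin r → Fin n) =>
      ¬ Uniq (fun i => (u.1 i : ℕ)) (fun i => (u.2 i : ℕ)))]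
  refine add_le_add ?_ ?_
  · have h1 : ∀ u ∈ Finset.univ.filter (fun u : (Fin r → Fin n) × (Fin r → Fin n) =>
        ¬ Uniq (fun i => (u.1 i : ℕ)) (fun i => (u.2 i : ℕ))),
        ‖ts χ r n w u‖ ^ k ≤ (N : ℝ) ^ k := by
      intro u _
      refine pow_le_pow_left₀ (norm_nonneg _) ?_ _
      refine (norm_sum_le _ _).trans ?_
      calc ∑ x : ZMod N, ‖term χ r n w u.1 u.2 x‖ ≤ ∑ _x : ZMod N, (1 : ℝ) :=
            Finset.sum_le_sum fun x _ => term_norm_le χ r n w u.1 u.2 x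
        _ = N := by simp
    refine (Finset.sum_le_card_nsmul _ _ _ h1).trans ?_
    rw [nsmul_eq_mul]
    have h2 : (((Finset.univ.filter (fun u : (Fin r → Fin n) × (Fin r → Fin n) =>
        ¬ Uniq (fun i => (u.1 i : ℕ)) (fun i => (u.2 i : ℕ)))).card : ℕ) : ℝ) ≤
        (r : ℝ) ^ (2 * r) * (n : ℝ) ^ r := by
      exact_mod_cast tup r n hr
    exact mul_le_mul_of_nonneg_right h2 (by positivity)
  · have h1 : ∀ u ∈ Finset.univ.filter (fun u : (Fin r → Fin n) × (Fin r → Fin n) =>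
        ¬ ¬ Uniq (fun i => (u.1 i : ℕ)) (fun i => (u.2 i : ℕ))),
        ‖ts χ r n w u‖ ^ k ≤ (K * Real.sqrt N) ^ k := by
      intro u hu
      rw [Finset.mem_filter] at hu
      have h3 := hC (fun i => (w (u.1 i)).val) (fun i => (w (u.2 i)).val)
        (fun i => ZMod.val_lt _) (fun i => ZMod.val_lt _)
        (uniq_val w hw u.1 u.2 (not_not.1 hu.2))
      simp only [ZMod.natCast_zmod_val] at h3
      exact pow_le_pow_left₀ (norm_nonneg _) h3 _
    refine (Finset.sum_le_card_nsmul _ _ _ h1).trans ?_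
    rw [nsmul_eq_mul]
    have h2 : (((Finset.univ.filter (fun u : (Fin r → Fin n) × (Fin r → Fin n) =>
        ¬ ¬ Uniq (fun i => (u.1 i : ℕ)) (fun i => (u.2 i : ℕ)))).card : ℕ) : ℝ) ≤
        (n : ℝ) ^ (2 * r) := by
      have h3 := Finset.card_filter_le (Finset.univ : Finset ((Fin r → Fin n) × (Fin r → Fin n)))
        (fun u => ¬ ¬ Uniq (fun i => (u.1 i : ℕ)) (fun i => (u.2 i : ℕ)))
      have h4 : (Finset.univ : Finset ((Fin r → Fin n) × (Fin r → Fin n))).card = n ^ (2 * r) := by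
        rw [Finset.card_univ, Fintype.card_prod, Fintype.card_fun, Fintype.card_fin,
          Fintype.card_fin, two_mul, pow_add]
      rw [h4] at h3
      exact_mod_cast h3
    exact mul_le_mul_of_nonneg_right h2 (pow_nonneg (mul_nonneg hK (Real.sqrt_nonneg _)) _)

theorem expandG {n : ℕ} (r : ℕ) (φ : Fin n → ℂ) :
    ((‖∑ j, φ j‖ ^ (2 * r) : ℝ) : ℂ) =
      ∑ u : (Fin r → Fin n) × (Fin r → Fin n),
        (∏ i, φ (u.1 i)) * ∏ i, (starRingEnd ℂ) (φ (u.2 i)) := by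
  set S : ℂ := ∑ j, φ j with hS
  have h1 : ((‖S‖ ^ (2 * r) : ℝ) : ℂ) = S ^ r * (starRingEnd ℂ) S ^ r := by
    rw [← mul_pow, Complex.mul_conj, Complex.normSq_eq_norm_sq, pow_mul]
    push_cast
    ring
  have h2 : S ^ r = ∑ b : Fin r → Fin n, ∏ i, φ (b i) := by
    rw [hS, ← Fin.prod_const, Finset.prod_univ_sum, Fintype.piFinset_univ]
  have h3 : (starRingEnd ℂ) S ^ r =
      ∑ c : Fin r → Fin n, ∏ i, (starRingEnd ℂ) (φ (c i)) := by
    rw [hS, map_sum, ← Fin.prod_const, Finset.prod_univ_sum, Fintype.piFinset_univ]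
  rw [h1, h2, h3, Finset.sum_mul_sum, ← Finset.univ_product_univ, Finset.sum_product]

/-- weighted sums -/
theorem momW (r n : ℕ) (K : ℝ) (hr : 1 ≤ r) (hK : 0 ≤ K) (w : Fin n → ZMod N)
    (hw : Function.Injective w) (hC : Complete N χ r N K) (c : Fin n → ℂ) (hc : ∀ j, ‖c j‖ ≤ 1) :
    ∑ x : ZMod N, ‖∑ j, c j * χ (x + w j)‖ ^ (2 * r) ≤
      (r : ℝ) ^ (2 * r) * (n : ℝ) ^ r * N + (n : ℝ) ^ (2 * r) * (K * Real.sqrt N) := by
  have hW : ((∑ x : ZMod N, ‖∑ j, c j * χ (x + w j)‖ ^ (2 * r) : ℝ) : ℂ) =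
      ∑ u : (Fin r → Fin n) × (Fin r → Fin n),
        ((∏ i, c (u.1 i)) * ∏ i, (starRingEnd ℂ) (c (u.2 i))) * ts χ r n w u := by
    push_cast
    have h1 : ∀ x : ZMod N, ((‖∑ j, c j * χ (x + w j)‖ : ℂ)) ^ (2 * r) =
        ∑ u : (Fin r → Fin n) × (Fin r → Fin n),
          ((∏ i, c (u.1 i)) * ∏ i, (starRingEnd ℂ) (c (u.2 i))) * term χ r n w u.1 u.2 x := by
      intro x
      have h2 := expandG r (fun j => c j * χ (x + w j))
      push_cast at h2
      rw [h2]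
      refine Finset.sum_congr rfl fun u _ => ?_
      unfold term
      simp only [map_mul, Finset.prod_mul_distrib]
      ring
    rw [Finset.sum_congr rfl fun x _ => h1 x, Finset.sum_comm]
    refine Finset.sum_congr rfl fun u _ => ?_
    rw [ts, Finset.mul_sum]
  have hW0 : 0 ≤ ∑ x : ZMod N, ‖∑ j, c j * χ (x + w j)‖ ^ (2 * r) :=
    Finset.sum_nonneg fun x _ => by positivity
  have hW1 : ∑ x : ZMod N, ‖∑ j, c j * χ (x + w j)‖ ^ (2 * r) =
      ‖((∑ x : ZMod N, ‖∑ j, c j * χ (x + w j)‖ ^ (2 * r) : ℝ) : ℂ)‖ := by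
    rw [Complex.norm_real, Real.norm_eq_abs, abs_of_nonneg hW0]
  rw [hW1, hW]
  refine (norm_sum_le _ _).trans ?_
  have h3 := tuples χ r n 1 K hr hK w hw hC
  simp only [pow_one] at h3
  refine (Finset.sum_le_sum fun u _ => ?_).trans h3
  rw [norm_mul]
  refine mul_le_of_le_one_left (norm_nonneg _) ?_
  rw [norm_mul, norm_prod, norm_prod]
  refine mul_le_one₀ (Finset.prod_le_one (fun i _ => norm_nonneg _) fun i _ => hc _)
    (Finset.prod_nonneg fun i _ => norm_nonneg _)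
    (Finset.prod_le_one (fun i _ => norm_nonneg _) fun i _ => ?_)
  rw [RCLike.norm_conj]
  exact hc _

/-- two parameters -/
theorem mom2 (r n : ℕ) (K : ℝ) (hr : 1 ≤ r) (hK : 0 ≤ K) (w : Fin n → ZMod N)
    (hw : Function.Injective w) (hC : Complete N χ r N K) :
    ∑ x : ZMod N, ∑ y : ZMod N,
        ‖∑ j, χ (x + w j) * (starRingEnd ℂ) (χ (y + w j))‖ ^ (2 * r) ≤
      (r : ℝ) ^ (2 * r) * (n : ℝ) ^ r * (N : ℝ) ^ 2 +
        (n : ℝ) ^ (2 * r) * (K * Real.sqrt N) ^ 2 := by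
  have hW : ((∑ x : ZMod N, ∑ y : ZMod N,
      ‖∑ j, χ (x + w j) * (starRingEnd ℂ) (χ (y + w j))‖ ^ (2 * r) : ℝ) : ℂ) =
      ∑ u : (Fin r → Fin n) × (Fin r → Fin n),
        ts χ r n w u * (starRingEnd ℂ) (ts χ r n w u) := by
    push_cast
    have h1 : ∀ x y : ZMod N,
        ((‖∑ j, χ (x + w j) * (starRingEnd ℂ) (χ (y + w j))‖ : ℂ)) ^ (2 * r) =
        ∑ u : (Fin r → Fin n) × (Fin r → Fin n),
          term χ r n w u.1 u.2 x * (starRingEnd ℂ) (term χ r n w u.1 u.2 y) := by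
      intro x y
      have h2 := expandG r (fun j => χ (x + w j) * (starRingEnd ℂ) (χ (y + w j)))
      push_cast at h2
      rw [h2]
      refine Finset.sum_congr rfl fun u _ => ?_
      unfold term
      simp only [map_mul, Finset.prod_mul_distrib, map_prod]
      ring
    have h2 : ∀ x : ZMod N, ∑ y : ZMod N,
        ((‖∑ j, χ (x + w j) * (starRingEnd ℂ) (χ (y + w j))‖ : ℂ)) ^ (2 * r) =
        ∑ u : (Fin r → Fin n) × (Fin r → Fin n),
          term χ r n w u.1 u.2 x * (starRingEnd ℂ) (ts χ r n w u) := by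
      intro x
      rw [Finset.sum_congr rfl fun y _ => h1 x y, Finset.sum_comm]
      refine Finset.sum_congr rfl fun u _ => ?_
      rw [ts, map_sum, Finset.mul_sum]
    rw [Finset.sum_congr rfl fun x _ => h2 x, Finset.sum_comm]
    refine Finset.sum_congr rfl fun u _ => ?_
    rw [← Finset.sum_mul]
    rfl
  have hW0 : 0 ≤ ∑ x : ZMod N, ∑ y : ZMod N,
      ‖∑ j, χ (x + w j) * (starRingEnd ℂ) (χ (y + w j))‖ ^ (2 * r) :=
    Finset.sum_nonneg fun x _ => Finset.sum_nonneg fun y _ => by positivity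
  have hW1 : ∑ x : ZMod N, ∑ y : ZMod N,
      ‖∑ j, χ (x + w j) * (starRingEnd ℂ) (χ (y + w j))‖ ^ (2 * r) =
      ‖((∑ x : ZMod N, ∑ y : ZMod N,
        ‖∑ j, χ (x + w j) * (starRingEnd ℂ) (χ (y + w j))‖ ^ (2 * r) : ℝ) : ℂ)‖ := by
    rw [Complex.norm_real, Real.norm_eq_abs, abs_of_nonneg hW0]
  rw [hW1, hW]
  refine (norm_sum_le _ _).trans ?_
  have h3 := tuples χ r n 2 K hr hK w hw hC
  refine (Finset.sum_le_sum fun u _ => ?_).trans h3
  rw [norm_mul, RCLike.norm_conj, sq]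

/-- weighted sums over a finite set of shifts -/
theorem momWF (r : ℕ) (K : ℝ) (hr : 1 ≤ r) (hK : 0 ≤ K) (B : Finset (ZMod N))
    (hC : Complete N χ r N K) (c : ZMod N → ℂ) (hc : ∀ b, ‖c b‖ ≤ 1) :
    ∑ x : ZMod N, ‖∑ b ∈ B, c b * χ (x + b)‖ ^ (2 * r) ≤
      (r : ℝ) ^ (2 * r) * (B.card : ℝ) ^ r * N + (B.card : ℝ) ^ (2 * r) * (K * Real.sqrt N) := by
  classical
  have h := momW χ r B.card K hr hK (fun j => (B.equivFin.symm j : ZMod N))
    (fun i j hij => B.equivFin.symm.injective (Subtype.ext hij)) hC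
    (fun j => c (B.equivFin.symm j : ZMod N)) (fun j => hc _)
  have e : ∀ x : ZMod N, ∑ j : Fin B.card, c (B.equivFin.symm j : ZMod N) *
      χ (x + (B.equivFin.symm j : ZMod N)) = ∑ b ∈ B, c b * χ (x + b) := by
    intro x
    rw [Equiv.sum_comp B.equivFin.symm (fun b : B => c (b : ZMod N) * χ (x + (b : ZMod N)))]
    exact Finset.sum_coe_sort B (fun b => c b * χ (x + b))
  simp only [e] at h
  exact h

/-- two parameters, a finite set of shifts -/
theorem mom2F (r : ℕ) (K : ℝ) (hr : 1 ≤ r) (hK : 0 ≤ K) (B : Finset (ZMod N))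
    (hC : Complete N χ r N K) :
    ∑ x : ZMod N, ∑ y : ZMod N,
        ‖∑ b ∈ B, χ (x + b) * (starRingEnd ℂ) (χ (y + b))‖ ^ (2 * r) ≤
      (r : ℝ) ^ (2 * r) * (B.card : ℝ) ^ r * (N : ℝ) ^ 2 +
        (B.card : ℝ) ^ (2 * r) * (K * Real.sqrt N) ^ 2 := by
  classical
  have h := mom2 χ r B.card K hr hK (fun j => (B.equivFin.symm j : ZMod N))
    (fun i j hij => B.equivFin.symm.injective (Subtype.ext hij)) hC
  have e : ∀ x y : ZMod N, ∑ j : Fin B.card, χ (x + (B.equivFin.symm j : ZMod N)) *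
      (starRingEnd ℂ) (χ (y + (B.equivFin.symm j : ZMod N))) =
      ∑ b ∈ B, χ (x + b) * (starRingEnd ℂ) (χ (y + b)) := by
    intro x y
    rw [Equiv.sum_comp B.equivFin.symm (fun b : B => χ (x + (b : ZMod N)) *
      (starRingEnd ℂ) (χ (y + (b : ZMod N))))]
    exact Finset.sum_coe_sort B (fun b => χ (x + b) * (starRingEnd ℂ) (χ (y + b)))
  simp only [e] at h
  exact h

end Pool.Agent.Y881.PG
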