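import Pool.Agent.Y881.PG.Final
import Pool.Agent.Y881.SP.Sets

/-! # Almost all affine and Möbius images, beyond the square root barrier -/

set_option autoImplicit false

namespace Pool.Agent.Y881.PG

open Finset Pool.Agent.H471R4.BW Pool.Agent.H435R3.Paley Pool.Agent.Y881.SP

lemma large_values {ι : Type*} (s : Finset ι) (G : ι → ℝ) (hG : ∀ i ∈ s, 0 ≤ G i) (θ : ℝ)
    (hθ : 0 ≤ θ) (k : ℕ) :
    ((s.filter fun i => θ < G i).card : ℝ) * θ ^ k ≤ ∑ i ∈ s, G i ^ k := by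
  rw [← nsmul_eq_mul]
  refine (card_nsmul_le_sum _ _ _ fun i hi => ?_).trans
    (sum_le_sum_of_subset_of_nonneg (filter_subset _ _) fun i hi _ => pow_nonneg (hG i hi) _)
  exact pow_le_pow_left₀ hθ (mem_filter.1 hi).2.le k

section
variable {p : ℕ} [Fact p.Prime]

open Classical in
/-- a map with a large sum sends many points to the set of large values -/
lemma hit_large (A : Finset (ZMod p)) (g : ZMod p × ZMod p) (G : ZMod p → ℝ) (n q X : ℝ)
    (hn : 0 < n) (hq : 0 < q) (hG : ∀ z, G z ≤ n)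
    (h1 : q * (A.card * n) ≤ X + (q / 4) * (A.card * n))
    (h2 : X ≤ ∑ a ∈ A, G ((a + g.1) / g.2)) :
    (A.card : ℝ) ≤ (2 / q) * (hit A (univ.filter fun z => (q / 4) * n < G z) g).card := by
  set Z := univ.filter fun z => (q / 4) * n < G z with hZ
  have h3 : ∑ a ∈ A, G ((a + g.1) / g.2) ≤ (hit A Z g).card * n + A.card * ((q / 4) * n) := by
    rw [← sum_filter_add_sum_filter_not A (fun a => (a + g.1) / g.2 ∈ Z)]
    refine add_le_add ?_ ?_
    · rw [← nsmul_eq_mul]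
      exact sum_le_card_nsmul _ _ _ fun a _ => hG _
    · have h4 : ∀ a ∈ A.filter (fun a => ¬ (a + g.1) / g.2 ∈ Z),
          G ((a + g.1) / g.2) ≤ (q / 4) * n := by
        intro a ha
        have h5 := (mem_filter.1 ha).2
        by_contra hcon
        exact h5 (mem_filter.2 ⟨mem_univ _, not_le.1 hcon⟩)
      refine (sum_le_card_nsmul _ _ _ h4).trans ?_
      rw [nsmul_eq_mul]
      refine mul_le_mul_of_nonneg_right ?_ (by positivity)
      exact_mod_cast card_filter_le A _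
  have h5 : (q / 2 * A.card) * n ≤ ((hit A Z g).card : ℝ) * n := by
    have : q * (A.card * n) ≤
        ((hit A Z g).card * n + A.card * ((q / 4) * n)) + (q / 4) * (A.card * n) := by linarith
    linarith
  have h6 := le_of_mul_le_mul_right h5 hn
  calc (A.card : ℝ) = (2 / q) * (q / 2 * A.card) := by field_simp
    _ ≤ _ := mul_le_mul_of_nonneg_left h6 (by positivity)

lemma H_le (χ : DirichletCharacter ℂ p) (B : Finset (ZMod p)) (v z : ZMod p) :
    H χ B v z ≤ B.card := by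
  unfold H
  refine (norm_sum_le _ _).trans ?_
  refine (sum_le_card_nsmul _ _ 1 fun b _ => ?_).trans (by simp)
  rw [norm_mul, RCLike.norm_conj]
  exact mul_le_one₀ (χ.norm_le_one _) (norm_nonneg _) (χ.norm_le_one _)

lemma H_nonneg (χ : DirichletCharacter ℂ p) (B : Finset (ZMod p)) (v z : ZMod p) :
    0 ≤ H χ B v z := norm_nonneg _

end

theorem barrier (ε : ℝ) (hε : 0 < ε) : ∃ c : ℝ, 0 < c ∧ ∃ δ : ℝ, 0 < δ ∧ ∃ p₀ : ℕ,
    ∀ (p : ℕ) [Fact p.Prime], p₀ ≤ p → ∀ χ : DirichletCharacter ℂ p, χ ≠ 1 →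
    ∀ A B : Finset (ZMod p), (p : ℝ) ^ ε ≤ A.card → (p : ℝ) ^ ε ≤ B.card →
      ((bad1 χ A B δ).card : ℝ) ≤ (p : ℝ) ^ (1 - c) ∧
      ∑ v, ((bad2 χ A B δ v).card : ℝ) ≤ (p : ℝ) ^ (3 / 2 - c) := by
  obtain ⟨e, he⟩ : ∃ e : ℝ, e = min ε (1 / 8) := ⟨_, rfl⟩
  have he0 : 0 < e := by rw [he]; positivity
  have he1 : e ≤ ε := by rw [he]; exact min_le_left _ _
  have he2 : e ≤ 1 / 8 := by rw [he]; exact min_le_right _ _
  obtain ⟨c₁, hc₁, p₁, hrich⟩ := rich e he0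
  obtain ⟨c₀, hc₀⟩ : ∃ c₀ : ℝ, c₀ = min c₁ (1 / 4) := ⟨_, rfl⟩
  have hc00 : 0 < c₀ := by rw [hc₀]; positivity
  have hc01 : c₀ ≤ c₁ := by rw [hc₀]; exact min_le_left _ _
  have hc02 : c₀ ≤ 1 / 4 := by rw [hc₀]; exact min_le_right _ _
  obtain ⟨r, hr⟩ : ∃ r : ℕ, r = ⌈1 / e⌉₊ + 1 := ⟨_, rfl⟩
  have hr1 : 1 ≤ r := by omega
  have hrε : 1 ≤ e * r := by
    have h1 : 1 / e ≤ (⌈1 / e⌉₊ : ℝ) := Nat.le_ceil _
    have h2 : (r : ℝ) = (⌈1 / e⌉₊ : ℝ) + 1 := by rw [hr]; push_cast; ring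
    rw [h2]
    have h3 : 1 = e * (1 / e) := by field_simp
    nlinarith
  have hr0 : (1 : ℝ) ≤ r := by exact_mod_cast hr1
  obtain ⟨η, hη⟩ : ∃ η : ℝ, η = c₀ / 8 := ⟨_, rfl⟩
  have hη0 : 0 < η := by rw [hη]; positivity
  obtain ⟨d₀, hd₀⟩ : ∃ d₀ : ℝ, d₀ = η / (4 * r) := ⟨_, rfl⟩
  have hd₀0 : 0 < d₀ := by rw [hd₀]; positivity
  obtain ⟨d, hd⟩ : ∃ d : ℝ, d = min d₀ (e / 2) := ⟨_, rfl⟩
  have hd0 : 0 < d := by rw [hd]; positivity
  have hdd : d ≤ d₀ := by rw [hd]; exact min_le_left _ _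
  have hde : d ≤ e / 2 := by rw [hd]; exact min_le_right _ _
  have hd1 : d ≤ c₀ / 32 := by
    refine hdd.trans ?_
    rw [hd₀, hη, div_le_iff₀ (by positivity)]
    nlinarith
  obtain ⟨p₂, hp₂2, hp₂⟩ := exists_large (CC r * 4 ^ (2 * r)) (η / 2) (by positivity)
  obtain ⟨p₃, hp₃2, hp₃⟩ := exists_large 4 (min (c₀ / 4) (e / 2)) (by positivity)
  refine ⟨c₀ / 2, by positivity, d, hd0, p₁ + p₂ + p₃, fun p _ hp χ hχ A B hA' hB' => ?_⟩
  have hp1 : (1 : ℝ) ≤ p := by exact_mod_cast (Fact.out : p.Prime).one_le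
  have hp0 : (0 : ℝ) < p := by linarith
  have hmono : ∀ x y : ℝ, x ≤ y → (p : ℝ) ^ x ≤ (p : ℝ) ^ y := fun x y h =>
    Real.rpow_le_rpow_of_exponent_le hp1 h
  have hA : (p : ℝ) ^ e ≤ A.card := (hmono _ _ he1).trans hA'
  have hB : (p : ℝ) ^ e ≤ B.card := (hmono _ _ he1).trans hB'
  have hCC := hp₂ p (by omega)
  have h4 := hp₃ p (by omega)
  have h4c : 4 ≤ (p : ℝ) ^ (c₀ / 4) := h4.trans (hmono _ _ (min_le_left _ _))
  have h4e : 4 ≤ (p : ℝ) ^ (e / 2) := h4.trans (hmono _ _ (min_le_right _ _))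
  have hBr : (p : ℝ) ≤ (B.card : ℝ) ^ r := by
    calc (p : ℝ) = (p : ℝ) ^ (1 : ℝ) := (Real.rpow_one _).symm
      _ ≤ (p : ℝ) ^ (e * r) := hmono _ _ hrε
      _ = ((p : ℝ) ^ e) ^ r := by rw [Real.rpow_mul hp0.le, Real.rpow_natCast]
      _ ≤ (B.card : ℝ) ^ r := pow_le_pow_left₀ (by positivity) hB r
  obtain ⟨n, hn⟩ : ∃ n : ℝ, n = B.card := ⟨_, rfl⟩
  have hn0 : 0 < n := by
    rw [hn]
    exact lt_of_lt_of_le (by positivity) hB
  obtain ⟨q, hq⟩ : ∃ q : ℝ, q = (p : ℝ) ^ (-d) := ⟨_, rfl⟩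
  have hq0 : 0 < q := by rw [hq]; positivity
  have hCC0 : 0 ≤ CC r := CC_nonneg r
  -- size of the sets of large values
  have hLV : ∀ N F : ℝ, 0 ≤ N → N * ((q / 4) * n) ^ (2 * r) ≤ CC r * n ^ (2 * r) * F → 0 ≤ F →
      N ≤ (p : ℝ) ^ η * F := by
    intro N F hN h hF
    have e1 : ((q / 4) * n) ^ (2 * r) = (q ^ (2 * r) / 4 ^ (2 * r)) * n ^ (2 * r) := by
      rw [mul_pow, div_pow]
    have e2 : (p : ℝ) ^ (-(η / 2)) ≤ q ^ (2 * r) := by
      rw [hq, ← Real.rpow_natCast, ← Real.rpow_mul hp0.le]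
      refine hmono _ _ ?_
      push_cast
      have h5 : d * (2 * r) ≤ η / 2 := by
        calc d * (2 * r) ≤ d₀ * (2 * r) := by gcongr
          _ = η / 2 := by rw [hd₀]; field_simp; ring
      linarith
    rw [e1] at h
    have h6 : (N * q ^ (2 * r)) * (n ^ (2 * r) / 4 ^ (2 * r)) ≤
        ((CC r * 4 ^ (2 * r)) * F) * (n ^ (2 * r) / 4 ^ (2 * r)) := by
      calc (N * q ^ (2 * r)) * (n ^ (2 * r) / 4 ^ (2 * r)) =
          N * (q ^ (2 * r) / 4 ^ (2 * r) * n ^ (2 * r)) := by ring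
        _ ≤ _ := h
        _ = _ := by field_simp
    have h7 := le_of_mul_le_mul_right h6 (by positivity)
    have h8 : N * (p : ℝ) ^ (-(η / 2)) ≤ (p : ℝ) ^ (η / 2) * F :=
      (mul_le_mul_of_nonneg_left e2 hN).trans (h7.trans (mul_le_mul_of_nonneg_right hCC hF))
    calc N = (N * (p : ℝ) ^ (-(η / 2))) * (p : ℝ) ^ (η / 2) := by
          rw [mul_assoc, ← Real.rpow_add hp0, neg_add_cancel, Real.rpow_zero, mul_one]
      _ ≤ ((p : ℝ) ^ (η / 2) * F) * (p : ℝ) ^ (η / 2) :=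
          mul_le_mul_of_nonneg_right h8 (by positivity)
      _ = ((p : ℝ) ^ (η / 2) * (p : ℝ) ^ (η / 2)) * F := by ring
      _ = _ := by rw [← Real.rpow_add hp0, add_halves]
  have hsqrt : Real.sqrt p = (p : ℝ) ^ (1 / 2 : ℝ) := Real.sqrt_eq_rpow _
  -- the constant in the rich maps bound
  have h2q : 2 / q ≤ (p : ℝ) ^ c₁ := by
    have e1 : 2 / q = 2 * (p : ℝ) ^ d := by
      rw [hq, Real.rpow_neg hp0.le, div_inv_eq_mul]
    rw [e1]
    calc 2 * (p : ℝ) ^ d ≤ (p : ℝ) ^ (c₀ / 4) * (p : ℝ) ^ d := by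
          refine mul_le_mul_of_nonneg_right (by linarith) (by positivity)
      _ = (p : ℝ) ^ (c₀ / 4 + d) := by rw [← Real.rpow_add hp0]
      _ ≤ _ := hmono _ _ (by linarith)
  have hqn : 1 ≤ q / 4 * n := by
    have h5 : (p : ℝ) ^ (e / 2) ≤ q * n := by
      calc (p : ℝ) ^ (e / 2) ≤ (p : ℝ) ^ (-d + e) := hmono _ _ (by linarith)
        _ = q * (p : ℝ) ^ e := by rw [Real.rpow_add hp0, hq]
        _ ≤ q * n := mul_le_mul_of_nonneg_left (by rw [hn]; exact hB) hq0.le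
    linarith
  have hc0' : (p : ℝ) ^ (-c₁) ≤ (p : ℝ) ^ (-c₀) := hmono _ _ (by linarith)
  constructor
  · -- affine maps
    classical
    obtain ⟨Z, hZ⟩ : ∃ Z : Finset (ZMod p), Z = univ.filter fun z =>
      (q / 4) * n < ‖∑ b ∈ B, 1 * χ (z + b)‖ := ⟨_, rfl⟩
    have hZc : (Z.card : ℝ) ≤ (p : ℝ) ^ (1 / 2 + η) := by
      have hG := m1 χ hχ r hr1 B hBr (fun _ => 1) (fun _ => by simp)
      have h5 := large_values (univ : Finset (ZMod p)) (fun z => ‖∑ b ∈ B, 1 * χ (z + b)‖)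
        (fun z _ => norm_nonneg _) ((q / 4) * n) (by positivity) (2 * r)
      rw [← hZ] at h5
      rw [← hn] at hG
      have h6 := hLV Z.card (Real.sqrt p) (Nat.cast_nonneg _) (h5.trans hG) (Real.sqrt_nonneg _)
      rw [hsqrt, ← Real.rpow_add hp0] at h6
      rwa [add_comm (1 / 2 : ℝ) η]
    have h5 := hrich p (by omega) A Z (bad1 χ A B d) hA
      (hZc.trans (hmono _ _ (by linarith))) (by
      intro g hg
      obtain ⟨hg1, hg2⟩ := (mem_filter.1 hg).2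
      refine ⟨hg1, ?_⟩
      have h6 := hit_large A g (fun z => ‖∑ b ∈ B, 1 * χ (z + b)‖) n q
        (∑ a ∈ A, ‖∑ b ∈ B, 1 * χ ((a + g.1) / g.2 + b)‖) hn0 hq0 (fun z => by
          refine (norm_sum_le _ _).trans ?_
          rw [hn]
          refine (sum_le_card_nsmul _ _ 1 fun b _ => ?_).trans (by simp)
          rw [one_mul]
          exact χ.norm_le_one _) (by
          have h7 := aff_le χ A B g.1 g.2 hg1
          rw [← hq, ← hn] at hg2
          have h8 : 0 ≤ q / 4 * (A.card * n) := by positivity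
          linarith) le_rfl
      rw [← hZ] at h6
      exact h6.trans (mul_le_mul_of_nonneg_right h2q (Nat.cast_nonneg _)))
    refine h5.trans ?_
    have h6 : (Z.card : ℝ) ^ 2 ≤ (p : ℝ) ^ (1 + 2 * η) := by
      calc (Z.card : ℝ) ^ 2 ≤ ((p : ℝ) ^ (1 / 2 + η)) ^ 2 :=
            pow_le_pow_left₀ (Nat.cast_nonneg _) hZc 2
        _ = _ := by
            rw [← Real.rpow_natCast, ← Real.rpow_mul hp0.le]
            congr 1
            push_cast
            ring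
    have h7 : (p : ℝ) ^ (-c₁) * (Z.card : ℝ) ^ 2 ≤ (p : ℝ) ^ (1 - c₀ * (3 / 4)) := by
      calc (p : ℝ) ^ (-c₁) * (Z.card : ℝ) ^ 2 ≤ (p : ℝ) ^ (-c₀) * (p : ℝ) ^ (1 + 2 * η) :=
            mul_le_mul hc0' h6 (by positivity) (by positivity)
        _ = _ := by
            rw [← Real.rpow_add hp0, hη]
            congr 1
            ring
    have h8 : (p : ℝ) ^ e ≤ (p : ℝ) ^ (1 - c₀ * (3 / 4)) := hmono _ _ (by linarith)
    calc _ ≤ (p : ℝ) ^ (1 - c₀ * (3 / 4)) + (p : ℝ) ^ (1 - c₀ * (3 / 4)) := add_le_add h7 h8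
      _ = 2 * (p : ℝ) ^ (1 - c₀ * (3 / 4)) := by ring
      _ ≤ (p : ℝ) ^ (c₀ / 4) * (p : ℝ) ^ (1 - c₀ * (3 / 4)) :=
          mul_le_mul_of_nonneg_right (by linarith) (by positivity)
      _ = _ := by
          rw [← Real.rpow_add hp0]
          congr 1
          ring
  · -- Möbius maps
    classical
    obtain ⟨Z, hZ⟩ : ∃ Z : ZMod p → Finset (ZMod p), ∀ v, Z v = univ.filter fun z =>
      (q / 4) * n < H χ B v z := ⟨_, fun v => rfl⟩
    have hZc : ∀ v, ((Z v).card : ℝ) ≤ (p : ℝ) ^ (1 / 2 + η) := by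
      intro v
      have hG := m1 χ hχ r hr1 B hBr (fun b => (starRingEnd ℂ) (χ (v + b))) (fun b => by
        rw [RCLike.norm_conj]
        exact χ.norm_le_one _)
      have hG2 : ∑ z, H χ B v z ^ (2 * r) ≤ CC r * n ^ (2 * r) * Real.sqrt p := by
        rw [H_shift χ B r v, hn]
        refine le_trans (le_of_eq ?_) hG
        refine sum_congr rfl fun x _ => ?_
        congr 2
        exact sum_congr rfl fun b _ => mul_comm _ _
      have h5 := large_values (univ : Finset (ZMod p)) (fun z => H χ B v z)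
        (fun z _ => H_nonneg χ B v z) ((q / 4) * n) (by positivity) (2 * r)
      rw [← hZ v] at h5
      have h6 := hLV (Z v).card (Real.sqrt p) (Nat.cast_nonneg _) (h5.trans hG2)
        (Real.sqrt_nonneg _)
      rw [hsqrt, ← Real.rpow_add hp0] at h6
      rwa [add_comm (1 / 2 : ℝ) η]
    have hZs : ∑ v, ((Z v).card : ℝ) ≤ (p : ℝ) ^ (1 + η) := by
      have hG3 : ∑ v, ∑ z, H χ B v z ^ (2 * r) ≤ CC r * n ^ (2 * r) * p := by
        rw [sum_congr rfl fun v _ => H_shift χ B r v, sum_comm, hn]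
        exact m2 χ hχ r hr1 B hBr
      have h5 : (∑ v, ((Z v).card : ℝ)) * ((q / 4) * n) ^ (2 * r) ≤
          CC r * n ^ (2 * r) * p := by
        rw [sum_mul]
        refine (sum_le_sum fun v _ => ?_).trans hG3
        have h6 := large_values (univ : Finset (ZMod p)) (fun z => H χ B v z)
          (fun z _ => H_nonneg χ B v z) ((q / 4) * n) (by positivity) (2 * r)
        rwa [← hZ v] at h6
      have h6 := hLV _ p (sum_nonneg fun v _ => Nat.cast_nonneg _) h5 hp0.le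
      refine h6.trans (le_of_eq ?_)
      rw [Real.rpow_add hp0, Real.rpow_one, mul_comm]
    have h5 : ∀ v, ((bad2 χ A B d v).card : ℝ) ≤
        (p : ℝ) ^ (-c₀) * (p : ℝ) ^ (1 / 2 + η) * (Z v).card + (p : ℝ) ^ e := by
      intro v
      have h6 := hrich p (by omega) A (Z v) (bad2 χ A B d v) hA
        ((hZc v).trans (hmono _ _ (by linarith))) (by
        intro g hg
        obtain ⟨hg1, hg2⟩ := (mem_filter.1 hg).2
        refine ⟨hg1, ?_⟩
        have h6 := hit_large A g (fun z => H χ B v z) n q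
          (∑ a ∈ A, H χ B v ((a + g.1) / g.2)) hn0 hq0 (fun z => by
            rw [hn]; exact H_le χ B v z) (by
            have h7 := mob_le χ A B g.1 g.2 v hg1
            rw [← hq, ← hn] at hg2
            have h8 : (A.card : ℝ) ≤ q / 4 * (A.card * n) := by
              calc (A.card : ℝ) = A.card * 1 := (mul_one _).symm
                _ ≤ A.card * (q / 4 * n) := mul_le_mul_of_nonneg_left hqn (Nat.cast_nonneg _)
                _ = _ := by ring
            linarith) le_rfl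
        rw [← hZ v] at h6
        exact h6.trans (mul_le_mul_of_nonneg_right h2q (Nat.cast_nonneg _)))
      refine h6.trans (add_le_add ?_ le_rfl)
      calc (p : ℝ) ^ (-c₁) * ((Z v).card : ℝ) ^ 2 ≤
          (p : ℝ) ^ (-c₀) * (((p : ℝ) ^ (1 / 2 + η)) * (Z v).card) := by
            rw [sq]
            exact mul_le_mul hc0' (mul_le_mul_of_nonneg_right (hZc v) (Nat.cast_nonneg _))
              (by positivity) (by positivity)
        _ = _ := by ring
    refine (sum_le_sum fun v _ => h5 v).trans ?_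
    rw [sum_add_distrib, ← mul_sum, sum_const, card_univ, ZMod.card, nsmul_eq_mul]
    have h7 : (p : ℝ) ^ (-c₀) * (p : ℝ) ^ (1 / 2 + η) * ∑ v, ((Z v).card : ℝ) ≤
        (p : ℝ) ^ (3 / 2 - c₀ * (3 / 4)) := by
      calc (p : ℝ) ^ (-c₀) * (p : ℝ) ^ (1 / 2 + η) * ∑ v, ((Z v).card : ℝ)
          ≤ (p : ℝ) ^ (-c₀) * (p : ℝ) ^ (1 / 2 + η) * (p : ℝ) ^ (1 + η) :=
            mul_le_mul_of_nonneg_left hZs (by positivity)
        _ = _ := by
            rw [← Real.rpow_add hp0, ← Real.rpow_add hp0, hη]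
            congr 1
            ring
    have h8 : (p : ℝ) * (p : ℝ) ^ e ≤ (p : ℝ) ^ (3 / 2 - c₀ * (3 / 4)) := by
      calc (p : ℝ) * (p : ℝ) ^ e = (p : ℝ) ^ (1 + e) := by
            rw [Real.rpow_add hp0, Real.rpow_one]
        _ ≤ _ := hmono _ _ (by linarith)
    calc _ ≤ (p : ℝ) ^ (3 / 2 - c₀ * (3 / 4)) + (p : ℝ) ^ (3 / 2 - c₀ * (3 / 4)) :=
          add_le_add h7 h8
      _ = 2 * (p : ℝ) ^ (3 / 2 - c₀ * (3 / 4)) := by ring
      _ ≤ (p : ℝ) ^ (c₀ / 4) * (p : ℝ) ^ (3 / 2 - c₀ * (3 / 4)) :=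
          mul_le_mul_of_nonneg_right (by linarith) (by positivity)
      _ = _ := by
          rw [← Real.rpow_add hp0]
          congr 1
          ring

end Pool.Agent.Y881.PG
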