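import Pool.Agent.Y881.PG.Rich

/-! # The exceptional maps, as sets -/

set_option autoImplicit false

namespace Pool.Agent.Y881.PG

open Finset

variable {p : ℕ} [Fact p.Prime]

theorem set1 (χ : DirichletCharacter ℂ p) (A B : Finset (ZMod p)) (δ : ℝ) :
    {g : ZMod p × ZMod p | g.2 ≠ 0 ∧ (p : ℝ) ^ (-δ) * (A.card * B.card) <
      ‖∑ a ∈ A, ∑ b ∈ B, χ (a + (g.1 + g.2 * b))‖}.ncard = (bad1 χ A B δ).card := by
  classical
  have e : {g : ZMod p × ZMod p | g.2 ≠ 0 ∧ (p : ℝ) ^ (-δ) * (A.card * B.card) <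
      ‖∑ a ∈ A, ∑ b ∈ B, χ (a + (g.1 + g.2 * b))‖} = ↑(bad1 χ A B δ) := by
    ext g
    simp only [Set.mem_ofPred_eq, bad1, coe_filter, mem_univ, true_and, S1, add_assoc]
  rw [e, Set.ncard_coe_finset]

theorem set2 (χ : DirichletCharacter ℂ p) (A B : Finset (ZMod p)) (δ : ℝ) :
    {g : ZMod p × ZMod p × ZMod p | g.2.1 ≠ 0 ∧ (p : ℝ) ^ (-δ) * (A.card * B.card) <
      ‖∑ a ∈ A, ∑ b ∈ B, χ (a + (g.1 + g.2.1 / (b + g.2.2)))‖}.ncard ≤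
      ∑ v, (bad2 χ A B δ v).card := by
  classical
  have e : {g : ZMod p × ZMod p × ZMod p | g.2.1 ≠ 0 ∧
      (p : ℝ) ^ (-δ) * (A.card * B.card) <
      ‖∑ a ∈ A, ∑ b ∈ B, χ (a + (g.1 + g.2.1 / (b + g.2.2)))‖} =
      ↑((univ : Finset (ZMod p)).biUnion fun v =>
        (bad2 χ A B δ v).image fun g => (g.1, g.2, v)) := by
    ext ⟨x, y, v⟩
    simp only [Set.mem_ofPred_eq, coe_biUnion, coe_image, Set.mem_iUnion, Set.mem_image, bad2,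
      coe_filter, mem_univ, true_and, S2, add_assoc, coe_univ, Set.mem_univ, exists_prop]
    constructor
    · intro hx
      exact ⟨v, (x, y), hx, rfl⟩
    · rintro ⟨v', ⟨x', y'⟩, hx, hxy⟩
      simp only [Prod.mk.injEq] at hxy
      obtain ⟨rfl, rfl, rfl⟩ := hxy
      exact hx
  rw [e, Set.ncard_coe_finset]
  exact card_biUnion_le.trans (sum_le_sum fun v _ => card_image_le)

theorem bad1_mono (χ : DirichletCharacter ℂ p) (A B : Finset (ZMod p)) {d d' : ℝ} (h : d ≤ d') :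
    bad1 χ A B d ⊆ bad1 χ A B d' := by
  intro g hg
  have h1 := (mem_filter.1 hg).2
  have hp1 : (1 : ℝ) ≤ p := by exact_mod_cast (Fact.out : p.Prime).one_le
  refine mem_filter.2 ⟨mem_univ _, h1.1, lt_of_le_of_lt ?_ h1.2⟩
  exact mul_le_mul_of_nonneg_right (Real.rpow_le_rpow_of_exponent_le hp1 (by linarith))
    (by positivity)

theorem bad2_mono (χ : DirichletCharacter ℂ p) (A B : Finset (ZMod p)) (v : ZMod p) {d d' : ℝ}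
    (h : d ≤ d') : bad2 χ A B d v ⊆ bad2 χ A B d' v := by
  intro g hg
  have h1 := (mem_filter.1 hg).2
  have hp1 : (1 : ℝ) ≤ p := by exact_mod_cast (Fact.out : p.Prime).one_le
  refine mem_filter.2 ⟨mem_univ _, h1.1, lt_of_le_of_lt ?_ h1.2⟩
  exact mul_le_mul_of_nonneg_right (Real.rpow_le_rpow_of_exponent_le hp1 (by linarith))
    (by positivity)

theorem affine_final (ε : ℝ) (hε : 0 < ε) : ∃ c : ℝ, 0 < c ∧ ∃ δ : ℝ, 0 < δ ∧ ∃ p₀ : ℕ,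
    ∀ (p : ℕ) [Fact p.Prime], p₀ ≤ p → ∀ χ : DirichletCharacter ℂ p, χ ≠ 1 →
    ∀ A B : Finset (ZMod p), (p : ℝ) ^ ε ≤ A.card → (p : ℝ) ^ ε ≤ B.card →
      (({g : ZMod p × ZMod p | g.2 ≠ 0 ∧ (p : ℝ) ^ (-δ) * (A.card * B.card) <
          ‖∑ a ∈ A, ∑ b ∈ B, χ (a + (g.1 + g.2 * b))‖}.ncard : ℕ) : ℝ) ≤
        min ((p : ℝ) ^ (1 - c)) ((p : ℝ) ^ (3 / 2 + ε) / max (A.card : ℝ) B.card) := by
  obtain ⟨c, hc, δ₁, hδ₁, p₁, h1⟩ := barrier ε hε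
  obtain ⟨δ₂, hδ₂, p₂, h2⟩ := mobius' ε hε
  refine ⟨c, hc, min δ₁ δ₂, lt_min hδ₁ hδ₂, p₁ + p₂, fun p _ hp χ hχ A B hA hB => ?_⟩
  obtain ⟨h3, -⟩ := h1 p (by omega) χ hχ A B hA hB
  obtain ⟨h4, -⟩ := h2 p (by omega) χ hχ A B hA hB
  rw [set1]
  have hp0 : (0 : ℝ) < p := by exact_mod_cast (Fact.out : p.Prime).pos
  have hA0 : (0 : ℝ) < A.card := lt_of_lt_of_le (by positivity) hA
  refine le_min ?_ ?_
  · refine le_trans ?_ h3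
    exact_mod_cast card_le_card (bad1_mono χ A B (min_le_left _ _))
  · rw [le_div_iff₀ (lt_of_lt_of_le hA0 (le_max_left _ _)), mul_comm]
    refine le_trans ?_ h4
    refine mul_le_mul_of_nonneg_left ?_ (le_trans hA0.le (le_max_left _ _))
    exact_mod_cast card_le_card (bad1_mono χ A B (min_le_right _ _))

theorem mobius_final (ε : ℝ) (hε : 0 < ε) : ∃ c : ℝ, 0 < c ∧ ∃ δ : ℝ, 0 < δ ∧ ∃ p₀ : ℕ,
    ∀ (p : ℕ) [Fact p.Prime], p₀ ≤ p → ∀ χ : DirichletCharacter ℂ p, χ ≠ 1 →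
    ∀ A B : Finset (ZMod p), (p : ℝ) ^ ε ≤ A.card → (p : ℝ) ^ ε ≤ B.card →
      (({g : ZMod p × ZMod p × ZMod p | g.2.1 ≠ 0 ∧ (p : ℝ) ^ (-δ) * (A.card * B.card) <
          ‖∑ a ∈ A, ∑ b ∈ B, χ (a + (g.1 + g.2.1 / (b + g.2.2)))‖}.ncard : ℕ) : ℝ) ≤
        min ((p : ℝ) ^ (3 / 2 - c)) ((p : ℝ) ^ (2 + ε) / A.card) := by
  obtain ⟨c, hc, δ₁, hδ₁, p₁, h1⟩ := barrier ε hε
  obtain ⟨δ₂, hδ₂, p₂, h2⟩ := mobius' ε hε
  refine ⟨c, hc, min δ₁ δ₂, lt_min hδ₁ hδ₂, p₁ + p₂, fun p _ hp χ hχ A B hA hB => ?_⟩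
  obtain ⟨-, h3⟩ := h1 p (by omega) χ hχ A B hA hB
  obtain ⟨-, h4⟩ := h2 p (by omega) χ hχ A B hA hB
  have hp0 : (0 : ℝ) < p := by exact_mod_cast (Fact.out : p.Prime).pos
  have hA0 : (0 : ℝ) < A.card := lt_of_lt_of_le (by positivity) hA
  have h5 := set2 χ A B (min δ₁ δ₂)
  have h6 : (({g : ZMod p × ZMod p × ZMod p | g.2.1 ≠ 0 ∧
      (p : ℝ) ^ (-(min δ₁ δ₂)) * (A.card * B.card) <
      ‖∑ a ∈ A, ∑ b ∈ B, χ (a + (g.1 + g.2.1 / (b + g.2.2)))‖}.ncard : ℕ) : ℝ) ≤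
      ∑ v, ((bad2 χ A B (min δ₁ δ₂) v).card : ℝ) := by exact_mod_cast h5
  refine h6.trans (le_min ?_ ?_)
  · refine le_trans (sum_le_sum fun v _ => ?_) h3
    exact_mod_cast card_le_card (bad2_mono χ A B v (min_le_left _ _))
  · rw [le_div_iff₀ hA0, mul_comm, mul_sum]
    refine le_trans (sum_le_sum fun v _ => ?_) h4
    refine mul_le_mul_of_nonneg_left ?_ hA0.le
    exact_mod_cast card_le_card (bad2_mono χ A B v (min_le_right _ _))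

end Pool.Agent.Y881.PG
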